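import Mathlib

/-!
# Geometric sections extend: exact statements of the modules (proofs: /team-store/bsx_blueprint.md)

Setting: `U` an algebraically closed field, `A, B` algebraically closed subfields, `C` an algebraically
closed field contained in `A` and `B` (in the application `C = kb`, `A = Ω`, `B = Fb`).
-/

set_option autoImplicit false

namespace Pool.Agent.Helper1.BSX

section

variable (C A B U : Type) [Field C] [Field A] [Field B] [Field U] [Algebra C A] [Algebra C B]
  [Algebra A U] [Algebra B U]

/-- `A` has transcendence basis `x` over `C`, which is also a transcendence basis of `U` over `B` -/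
def FreeX (x : A) : Prop :=
  Algebra.IsAlgebraic (IntermediateField.adjoin C {x}) A ∧ Transcendental B (algebraMap A U x) ∧
    Algebra.IsAlgebraic (IntermediateField.adjoin B {algebraMap A U x}) U

/-- `A` and `B` are linearly disjoint over `C` in `U` -/
def LDj : Prop :=
  ∀ (n : ℕ) (a : Fin n → A) (b : Fin n → B), LinearIndependent C b →
    ∑ i, algebraMap A U (a i) * algebraMap B U (b i) = 0 → ∀ i, a i = 0

/-- the compositum of `A` and `B` in `U` -/
def Cmp : Subfield U :=
  Subfield.closure (Set.range (algebraMap A U) ∪ Set.range (algebraMap B U))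

/-- `W'` is a valuation ring of `U` which contains `B` and induces `W` on `A` -/
def Abv (W : ValuationSubring A) (W' : ValuationSubring U) : Prop :=
  (∀ a : A, algebraMap A U a ∈ W' ↔ a ∈ W) ∧ ∀ b : B, algebraMap B U b ∈ W'

/-- `W` contains `C` and has residue field `C` -/
def ResC (W : ValuationSubring A) : Prop :=
  (∀ c : C, algebraMap C A c ∈ W) ∧ ∀ a ∈ W, ∃ c : C, W.valuation (a - algebraMap C A c) < 1

end

/-- LD: linear disjointness. -/
def ST_LD : Prop :=
  ∀ (C A B U : Type) [Field C] [Field A] [Field B] [Field U] [Algebra C A] [Algebra C B]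
    [Algebra A U] [Algebra B U] [Algebra C U] [IsScalarTower C A U] [IsScalarTower C B U]
    [CharZero C] [IsAlgClosed C] [IsAlgClosed A] [IsAlgClosed B] [IsAlgClosed U] (x : A),
    FreeX C A B U x → LDj C A B U

/-- H0: extension of a pair of automorphisms to `U`. -/
def ST_H0 : Prop :=
  ∀ (C A B U : Type) [Field C] [Field A] [Field B] [Field U] [Algebra C A] [Algebra C B]
    [Algebra A U] [Algebra B U] [Algebra C U] [IsScalarTower C A U] [IsScalarTower C B U]
    [CharZero C] [IsAlgClosed U] (x : A), FreeX C A B U x → LDj C A B U →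
    ∀ (γ : C ≃+* C) (u : A ≃+* A) (g : B ≃+* B),
      (∀ c, u (algebraMap C A c) = algebraMap C A (γ c)) →
      (∀ c, g (algebraMap C B c) = algebraMap C B (γ c)) →
      ∃ h : U ≃+* U, (∀ a, h (algebraMap A U a) = algebraMap A U (u a)) ∧
        ∀ b, h (algebraMap B U b) = algebraMap B U (g b)

/-- CONJ: extensions of a valuation ring to an algebraic closure are conjugate. -/
def ST_CONJ : Prop :=
  ∀ (U : Type) [Field U] [CharZero U] [IsAlgClosed U] (S : Subfield U), Algebra.IsAlgebraic S U →
    ∀ V₁ V₂ : ValuationSubring U, (∀ x ∈ S, x ∈ V₁ ↔ x ∈ V₂) →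
      ∃ h : U ≃ₐ[S] U, ∀ x, h x ∈ V₂ ↔ x ∈ V₁

/-- WX: existence of a valuation ring of `U` above `W` containing `B`. -/
def ST_WX : Prop :=
  ∀ (C A B U : Type) [Field C] [Field A] [Field B] [Field U] [Algebra C A] [Algebra C B]
    [Algebra A U] [Algebra B U] [Algebra C U] [IsScalarTower C A U] [IsScalarTower C B U],
    LDj C A B U → ∀ W : ValuationSubring A, ResC C A W → ∃ W' : ValuationSubring U, Abv A B U W W'

/-- GAU: leading terms of elements of the compositum. -/
def ST_GAU : Prop :=
  ∀ (C A B U : Type) [Field C] [Field A] [Field B] [Field U] [Algebra C A] [Algebra C B]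
    [Algebra A U] [Algebra B U] [Algebra C U] [IsScalarTower C A U] [IsScalarTower C B U],
    ∀ W : ValuationSubring A, ResC C A W → ∀ z ∈ Cmp A B U, z ≠ 0 → ∃ (a : A) (b : B), a ≠ 0 ∧ b ≠ 0 ∧
      ∀ W' : ValuationSubring U, Abv A B U W W' →
        W'.valuation (z / algebraMap A U a - algebraMap B U b) < 1

/-- DEC: the decomposition group of `W'` over the compositum is trivial. -/
def ST_DEC : Prop :=
  ∀ (C A B U : Type) [Field C] [Field A] [Field B] [Field U] [Algebra C A] [Algebra C B]
    [Algebra A U] [Algebra B U] [Algebra C U] [IsScalarTower C A U] [IsScalarTower C B U]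
    [CharZero C] [IsAlgClosed A] [IsAlgClosed B] [IsAlgClosed U] (x : A), FreeX C A B U x →
    ∀ W : ValuationSubring A, ResC C A W → ∀ W' : ValuationSubring U, Abv A B U W W' →
    ∀ h : U ≃+* U, (∀ a, h (algebraMap A U a) = algebraMap A U a) →
      (∀ b, h (algebraMap B U b) = algebraMap B U b) → (∀ y, h y ∈ W' ↔ y ∈ W') → ∀ y, h y = y

end Pool.Agent.Helper1.BSX
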