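import Pool.Agent.Helper1.BSX.Top
import Pool.Agent.Helper1.BSX.Stmts

/-!
# Geometric sections extend
-/

set_option autoImplicit false

namespace Pool.Agent.Helper1.BSX

open Polynomial Pool.Agent.Helper14.BSC Pool.Agent.Helper14.BSC.Gen

/-- evaluation is continuous for the Krull topology -/
theorem cont_ev {K L : Type} [Field K] [Field L] [Algebra K L] [Algebra.IsAlgebraic K L]
    [TopologicalSpace L] [DiscreteTopology L] (y : L) :
    Continuous (fun h : L ≃ₐ[K] L => h y) := by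
  rw [continuous_iff_continuousAt]
  intro h₀
  rw [ContinuousAt, nhds_discrete L, Filter.tendsto_pure]
  have h1 : IsOpen (MulAction.stabilizer (L ≃ₐ[K] L) y : Set (L ≃ₐ[K] L)) :=
    stabilizer_isOpen_of_isIntegral y
  have h2 : IsOpen ((fun h : L ≃ₐ[K] L => h₀⁻¹ * h) ⁻¹'
      (MulAction.stabilizer (L ≃ₐ[K] L) y : Set (L ≃ₐ[K] L))) :=
    h1.preimage (continuous_const_mul h₀⁻¹)
  have h3 : h₀ ∈ ((fun h : L ≃ₐ[K] L => h₀⁻¹ * h) ⁻¹'
      (MulAction.stabilizer (L ≃ₐ[K] L) y : Set (L ≃ₐ[K] L))) := by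
    show h₀⁻¹ * h₀ ∈ MulAction.stabilizer (L ≃ₐ[K] L) y
    rw [inv_mul_cancel]
    exact one_mem _
  filter_upwards [h2.mem_nhds h3] with h hh
  have h4 : (h₀⁻¹ * h) y = y := hh
  have h5 : h₀ ((h₀⁻¹ * h) y) = h₀ y := by rw [h4]
  rw [← h5, ← AlgEquiv.mul_apply, mul_inv_cancel_left]

theorem conv_unq (hGAU : ST_GAU) {C A B U : Type} [Field C] [Field A] [Field B] [Field U]
    [Algebra C A] [Algebra C B] [Algebra A U] [Algebra B U] [Algebra C U] [IsScalarTower C A U]
    [IsScalarTower C B U] (W : ValuationSubring A) (hW : ResC C A W) (V₁ V₂ : ValuationSubring U)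
    (h₁ : Abv A B U W V₁) (h₂ : Abv A B U W V₂) (z : U) (hz : z ∈ Cmp A B U) :
    z ∈ V₁ ↔ z ∈ V₂ := by
  by_cases hz0 : z = 0
  · rw [hz0]
    exact ⟨fun _ => zero_mem _, fun _ => zero_mem _⟩
  obtain ⟨a, b, ha, hb, h⟩ := hGAU C A B U W hW z hz hz0
  have key : ∀ V : ValuationSubring U, Abv A B U W V → (z ∈ V ↔ a ∈ W) := by
    intro V hV
    have h3 := h V hV
    have haU : algebraMap A U a ≠ 0 := (_root_.map_ne_zero _).2 ha
    have hbV : V.valuation (algebraMap B U b) = 1 := by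
      apply le_antisymm ((V.valuation_le_one_iff _).2 (hV.2 b))
      have h1 : V.valuation (algebraMap B U b⁻¹) ≤ 1 := (V.valuation_le_one_iff _).2 (hV.2 _)
      have h4 : V.valuation (algebraMap B U b) ≠ 0 :=
        (_root_.map_ne_zero _).2 ((_root_.map_ne_zero _).2 hb)
      rw [map_inv₀, map_inv₀] at h1
      exact (inv_le_one₀ (zero_lt_iff.2 h4)).1 h1
    have h5 : V.valuation (z / algebraMap A U a) = 1 := by
      have h6 : z / algebraMap A U a = (z / algebraMap A U a - algebraMap B U b) +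
        algebraMap B U b := by ring
      rw [h6, Valuation.map_add_eq_of_lt_right _ (by rw [hbV]; exact h3), hbV]
    have h7 : V.valuation z = V.valuation (algebraMap A U a) := by
      rw [map_div₀] at h5
      have h8 : V.valuation (algebraMap A U a) ≠ 0 := (_root_.map_ne_zero _).2 haU
      exact (div_eq_one_iff_eq h8).1 h5
    rw [← V.valuation_le_one_iff, h7, V.valuation_le_one_iff, hV.1]
  rw [key V₁ h₁, key V₂ h₂]

section

variable {k K kb Ω F M Fb U : Type} [Field k] [Field K] [Field kb] [Field Ω] [Field F] [Field M]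
  [Field Fb] [Field U]
  [Algebra k K] [Algebra k kb] [Algebra k Ω] [Algebra kb Ω] [Algebra K Ω]
  [IsScalarTower k K Ω] [IsScalarTower k kb Ω]
  [Algebra F M] [Algebra F Fb] [Algebra F U] [Algebra Fb U] [Algebra M U]
  [IsScalarTower F M U] [IsScalarTower F Fb U]
  [Algebra k F] [Algebra k Fb] [Algebra kb Fb] [IsScalarTower k F Fb] [IsScalarTower k kb Fb]
  [Algebra K M] [Algebra k M] [IsScalarTower k K M] [IsScalarTower k F M]
  [Algebra Ω U] [Algebra K U] [IsScalarTower K M U] [IsScalarTower K Ω U]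
  [Algebra kb U] [IsScalarTower kb Ω U] [IsScalarTower kb Fb U]

/-- the property which characterizes the extension of the section -/
def CvP (s : (kb ≃ₐ[k] kb) →* (Ω ≃ₐ[K] Ω)) (W' : ValuationSubring U) (g : Fb ≃ₐ[F] Fb)
    (h : U ≃ₐ[M] U) : Prop :=
  (∀ y : U, h y ∈ W' ↔ y ∈ W') ∧ (∀ b : Fb, h (algebraMap Fb U b) = algebraMap Fb U (g b)) ∧
    ∀ γ : kb ≃ₐ[k] kb, (∀ c : kb, g (algebraMap kb Fb c) = algebraMap kb Fb (γ c)) →
      ∀ x : Ω, h (algebraMap Ω U x) = algebraMap Ω U (s γ x)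


theorem conv_restr [IsAlgClosure k kb] (g : Fb ≃ₐ[F] Fb) : ∃ γ : kb ≃ₐ[k] kb,
    ∀ c : kb, g (algebraMap kb Fb c) = algebraMap kb Fb (γ c) := by
  have hn : Normal k kb := IsAlgClosure.normal k kb
  exact ⟨AlgEquiv.restrictNormal (g.restrictScalars k) kb, fun c =>
    (AlgEquiv.restrictNormal_commutes (g.restrictScalars k) kb c).symm⟩

theorem conv_restr_uniq (g : Fb ≃ₐ[F] Fb) (γ γ' : kb ≃ₐ[k] kb)
    (h : ∀ c : kb, g (algebraMap kb Fb c) = algebraMap kb Fb (γ c))
    (h' : ∀ c : kb, g (algebraMap kb Fb c) = algebraMap kb Fb (γ' c)) : γ = γ' := by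
  apply AlgEquiv.ext
  intro c
  apply (algebraMap kb Fb).injective
  rw [← h, ← h']

/-- existence -/
theorem conv_ex (hH0 : ST_H0) (hCONJ : ST_CONJ) (hGAU : ST_GAU) [CharZero kb] [CharZero U]
    [IsAlgClosed U] [IsAlgClosure k kb]
    (hM : IntermediateField.adjoin F (Set.range (algebraMap K M)) = ⊤)
    (x : Ω) (hx : FreeX kb Ω Fb U x) (hLD : LDj kb Ω Fb U)
    (s : (kb ≃ₐ[k] kb) →* (Ω ≃ₐ[K] Ω)) (hs : IsSection s) (W : ValuationSubring Ω)
    (hW : ResC kb Ω W) (hinv : ∀ (g : kb ≃ₐ[k] kb) (x : Ω), (s g x ∈ W ↔ x ∈ W))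
    (W' : ValuationSubring U) (hW' : Abv Ω Fb U W W') (g : Fb ≃ₐ[F] Fb) :
    ∃ h : U ≃ₐ[M] U, CvP s W' g h := by
  obtain ⟨γ, hγ⟩ := conv_restr (k := k) (kb := kb) g
  obtain ⟨h₀, h1, h2⟩ := hH0 kb Ω Fb U x hx hLD γ.toRingEquiv (s γ).toRingEquiv g.toRingEquiv
    (fun c => hs.2 γ c) hγ
  have h1' : ∀ a : Ω, h₀ (algebraMap Ω U a) = algebraMap Ω U (s γ a) := h1
  have h2' : ∀ b : Fb, h₀ (algebraMap Fb U b) = algebraMap Fb U (g b) := h2
  -- the transported valuation ring
  have hV₁ : Abv Ω Fb U W (W'.comap (h₀.symm : U ≃+* U).toRingHom) := by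
    constructor
    · intro a
      have e1 : h₀.symm (algebraMap Ω U a) = algebraMap Ω U ((s γ).symm a) := by
        rw [RingEquiv.symm_apply_eq, h1']
        rw [AlgEquiv.apply_symm_apply]
      show h₀.symm (algebraMap Ω U a) ∈ W' ↔ _
      rw [e1, hW'.1, ← hinv γ, AlgEquiv.apply_symm_apply]
    · intro b
      have e1 : h₀.symm (algebraMap Fb U b) = algebraMap Fb U (g.symm b) := by
        rw [RingEquiv.symm_apply_eq, h2', AlgEquiv.apply_symm_apply]
      show h₀.symm (algebraMap Fb U b) ∈ W'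
      rw [e1]
      exact hW'.2 _
  have halg : Algebra.IsAlgebraic (Cmp Ω Fb U) U := by
    constructor
    intro z
    have h3 := hx.2.2.isAlgebraic z
    refine gen_alg (A := IntermediateField.adjoin Fb {algebraMap Ω U x}) Subtype.val_injective ?_ h3
    rintro ⟨a, ha⟩
    refine ⟨⟨a, ?_⟩, rfl⟩
    induction ha using IntermediateField.adjoin_induction with
    | mem y hy =>
      rw [Set.mem_singleton_iff] at hy
      rw [hy]
      exact Subfield.subset_closure (Or.inl ⟨x, rfl⟩)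
    | algebraMap c => exact Subfield.subset_closure (Or.inr ⟨c, rfl⟩)
    | add u v _ _ hu hv => exact add_mem hu hv
    | inv u _ hu => exact inv_mem hu
    | mul u v _ _ hu hv => exact mul_mem hu hv
  obtain ⟨h₁, hh₁⟩ := hCONJ U (Cmp Ω Fb U) halg (W'.comap (h₀.symm : U ≃+* U).toRingHom) W'
    (fun z hz => conv_unq hGAU W hW _ _ hV₁ hW' z hz)
  have hfixA : ∀ a : Ω, h₁ (algebraMap Ω U a) = algebraMap Ω U a := fun a =>
    h₁.commutes (⟨_, Subfield.subset_closure (Or.inl ⟨a, rfl⟩)⟩ : Cmp Ω Fb U)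
  have hfixB : ∀ b : Fb, h₁ (algebraMap Fb U b) = algebraMap Fb U b := fun b =>
    h₁.commutes (⟨_, Subfield.subset_closure (Or.inr ⟨b, rfl⟩)⟩ : Cmp Ω Fb U)
  let h : U ≃+* U := h₀.trans h₁.toRingEquiv
  have hA : ∀ a : Ω, h (algebraMap Ω U a) = algebraMap Ω U (s γ a) := by
    intro a
    show h₁ (h₀ (algebraMap Ω U a)) = _
    rw [h1', hfixA]
  have hB : ∀ b : Fb, h (algebraMap Fb U b) = algebraMap Fb U (g b) := by
    intro b
    show h₁ (h₀ (algebraMap Fb U b)) = _
    rw [h2', hfixB]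
  have hMfix : ∀ m : M, h (algebraMap M U m) = algebraMap M U m := by
    intro m
    have hm : m ∈ IntermediateField.adjoin F (Set.range (algebraMap K M)) := by
      rw [hM]; trivial
    induction hm using IntermediateField.adjoin_induction with
    | mem y hy =>
      obtain ⟨c, rfl⟩ := hy
      rw [← IsScalarTower.algebraMap_apply K M U, IsScalarTower.algebraMap_apply K Ω U, hA,
        (s γ).commutes]
    | algebraMap c =>
      rw [← IsScalarTower.algebraMap_apply F M U, IsScalarTower.algebraMap_apply F Fb U, hB,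
        g.commutes]
    | add u v _ _ hu hv => rw [map_add, map_add, hu, hv]
    | inv u _ hu => rw [map_inv₀, map_inv₀, hu]
    | mul u v _ _ hu hv => rw [map_mul, map_mul, hu, hv]
  refine ⟨AlgEquiv.ofRingEquiv (f := h) hMfix, ?_, hB, ?_⟩
  · intro y
    show h₁ (h₀ y) ∈ W' ↔ _
    rw [hh₁]
    show h₀.symm (h₀ y) ∈ W' ↔ _
    rw [RingEquiv.symm_apply_apply]
  · intro γ' hγ' a
    rw [conv_restr_uniq g γ' γ hγ' hγ]
    exact hA a

/-- uniqueness -/
theorem conv_uniq (hDEC : ST_DEC) [CharZero kb] [IsAlgClosed Ω] [IsAlgClosed Fb]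
    [IsAlgClosed U] [IsAlgClosure k kb] (x : Ω) (hx : FreeX kb Ω Fb U x)
    (s : (kb ≃ₐ[k] kb) →* (Ω ≃ₐ[K] Ω)) (W : ValuationSubring Ω)
    (hW : ResC kb Ω W) (W' : ValuationSubring U) (hW' : Abv Ω Fb U W W') (g : Fb ≃ₐ[F] Fb)
    (h h' : U ≃ₐ[M] U) (hh : CvP s W' g h) (hh' : CvP s W' g h') : h = h' := by
  obtain ⟨γ, hγ⟩ := conv_restr (k := k) (kb := kb) g
  have h1 := hDEC kb Ω Fb U x hx W hW W' hW' (h.trans h'.symm).toRingEquiv
    (by
      intro a
      show h'.symm (h (algebraMap Ω U a)) = _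
      rw [hh.2.2 γ hγ, ← hh'.2.2 γ hγ, AlgEquiv.symm_apply_apply])
    (by
      intro b
      show h'.symm (h (algebraMap Fb U b)) = _
      rw [hh.2.1, ← hh'.2.1, AlgEquiv.symm_apply_apply])
    (by
      intro y
      show h'.symm (h y) ∈ W' ↔ _
      rw [← hh'.1, AlgEquiv.apply_symm_apply, hh.1])
  apply AlgEquiv.ext
  intro y
  have h2 : h'.symm (h y) = y := h1 y
  rw [AlgEquiv.symm_apply_eq] at h2
  exact h2

/-- the extension of the section -/
theorem conv_sec (hH0 : ST_H0) (hCONJ : ST_CONJ) (hGAU : ST_GAU) (hDEC : ST_DEC) [CharZero k]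
    [CharZero U] [IsAlgClosed Ω] [IsAlgClosure k kb] [Algebra.IsAlgebraic K Ω]
    [IsAlgClosure F Fb] [IsAlgClosure M U] [CharZero M]
    (hM : IntermediateField.adjoin F (Set.range (algebraMap K M)) = ⊤)
    (x : Ω) (hx : FreeX kb Ω Fb U x) (hLD : LDj kb Ω Fb U)
    (s : (kb ≃ₐ[k] kb) →* (Ω ≃ₐ[K] Ω)) (hs : IsSection s) (W : ValuationSubring Ω)
    (hW : ResC kb Ω W) (hinv : ∀ (g : kb ≃ₐ[k] kb) (x : Ω), (s g x ∈ W ↔ x ∈ W))
    (W' : ValuationSubring U) (hW' : Abv Ω Fb U W W') :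
    ∃ s' : (Fb ≃ₐ[F] Fb) →* (U ≃ₐ[M] U), IsSection s' ∧ Ext s s' := by
  have hcl : IsAlgClosed U := IsAlgClosure.isAlgClosed M
  have hclF : IsAlgClosed Fb := IsAlgClosure.isAlgClosed F
  have halgU : Algebra.IsAlgebraic M U := IsAlgClosure.isAlgebraic
  have halgF : Algebra.IsAlgebraic F Fb := IsAlgClosure.isAlgebraic
  have hckb : CharZero kb := charZero_of_injective_algebraMap (algebraMap k kb).injective
  have hex := conv_ex hH0 hCONJ hGAU hM x hx hLD s hs W hW hinv W' hW'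
  have huq := conv_uniq (M := M) (F := F) hDEC x hx s W hW W' hW'
  choose σ hσ using hex
  have hmul : ∀ g g' : Fb ≃ₐ[F] Fb, CvP s W' (g * g') (σ g * σ g') := by
    intro g g'
    refine ⟨fun y => ?_, fun b => ?_, fun γ hγ a => ?_⟩
    · rw [AlgEquiv.mul_apply, (hσ g).1, (hσ g').1]
    · rw [AlgEquiv.mul_apply, (hσ g').2.1, (hσ g).2.1, AlgEquiv.mul_apply]
    · obtain ⟨γ₁, hγ₁⟩ := conv_restr (k := k) (kb := kb) g
      obtain ⟨γ₂, hγ₂⟩ := conv_restr (k := k) (kb := kb) g'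
      have h1 : γ = γ₁ * γ₂ := by
        apply conv_restr_uniq (g * g') γ _ hγ
        intro c
        rw [AlgEquiv.mul_apply, hγ₂, hγ₁, AlgEquiv.mul_apply]
      rw [AlgEquiv.mul_apply, (hσ g').2.2 γ₂ hγ₂, (hσ g).2.2 γ₁ hγ₁, h1, map_mul,
        AlgEquiv.mul_apply]
  let s' : (Fb ≃ₐ[F] Fb) →* (U ≃ₐ[M] U) := MonoidHom.mk' σ (fun g g' =>
    huq (g * g') _ _ (hσ _) (hmul g g'))
  have hs' : ∀ g, s' g = σ g := fun g => rfl
  refine ⟨s', ⟨?_, ?_⟩, ?_⟩
  · -- continuity
    letI tU : TopologicalSpace U := ⊥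
    haveI dU : DiscreteTopology U := ⟨rfl⟩
    letI tF : TopologicalSpace Fb := ⊥
    haveI dF : DiscreteTopology Fb := ⟨rfl⟩
    letI tΩ : TopologicalSpace Ω := ⊥
    haveI dΩ : DiscreteTopology Ω := ⟨rfl⟩
    haveI : IsGalois M U := by infer_instance
    haveI : T2Space (Fb ≃ₐ[F] Fb) := krullTopology_t2
    haveI : T2Space (U ≃ₐ[M] U) := krullTopology_t2
    haveI : CompactSpace (U ≃ₐ[M] U) := inferInstance
    haveI hcF0 : CharZero F := charZero_of_injective_algebraMap (algebraMap k F).injective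
    haveI : IsGalois F Fb := by infer_instance
    haveI : CompactSpace (Fb ≃ₐ[F] Fb) := inferInstance
    let r : (Fb ≃ₐ[F] Fb) → (kb ≃ₐ[k] kb) := fun g => (conv_restr (k := k) (kb := kb) g).choose
    have hr : ∀ g, ∀ c : kb, g (algebraMap kb Fb c) = algebraMap kb Fb (r g c) := fun g =>
      (conv_restr (k := k) (kb := kb) g).choose_spec
    have hc1 : ∀ y : U, Continuous (fun q : (Fb ≃ₐ[F] Fb) × (U ≃ₐ[M] U) => q.2 y) := fun y =>
      (cont_ev y).comp continuous_snd
    have hc2 : ∀ b : Fb, Continuous (fun q : (Fb ≃ₐ[F] Fb) × (U ≃ₐ[M] U) => q.1 b) := fun b =>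
      (cont_ev b).comp continuous_fst
    have hc3 : ∀ a : Ω, Continuous (fun g : Fb ≃ₐ[F] Fb => s (r g) a) := by
      intro a
      obtain ⟨E, hE⟩ := top_fin s hs.1 a
      rw [continuous_iff_continuousAt]
      intro g₀
      rw [ContinuousAt, nhds_discrete Ω, Filter.tendsto_pure]
      have h1 : ∀ᶠ g in nhds g₀, ∀ c ∈ E, g (algebraMap kb Fb c) = g₀ (algebraMap kb Fb c) := by
        rw [Filter.eventually_all_finset]
        intro c _
        have h2 := (cont_ev (K := F) (algebraMap kb Fb c)).continuousAt (x := g₀)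
        rw [ContinuousAt, nhds_discrete Fb, Filter.tendsto_pure] at h2
        exact h2
      filter_upwards [h1] with g hg
      have h3 : s ((r g₀)⁻¹ * r g) a = a := by
        apply hE
        intro c hc
        have h4 : r g c = r g₀ c := by
          apply (algebraMap kb Fb).injective
          rw [← hr, ← hr, hg c hc]
        rw [AlgEquiv.mul_apply, h4, ← AlgEquiv.mul_apply, inv_mul_cancel]
        rfl
      have h5 : r g = r g₀ * ((r g₀)⁻¹ * r g) := by rw [mul_inv_cancel_left]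
      rw [h5, map_mul, AlgEquiv.mul_apply, h3]
    let Γ : Set ((Fb ≃ₐ[F] Fb) × (U ≃ₐ[M] U)) := {q | CvP s W' q.1 q.2}
    have hΓ : Γ = (⋂ y : U, {q | q.2 y ∈ W' ↔ y ∈ W'}) ∩
        (⋂ b : Fb, {q | q.2 (algebraMap Fb U b) = algebraMap Fb U (q.1 b)}) ∩
        (⋂ a : Ω, {q | q.2 (algebraMap Ω U a) = algebraMap Ω U (s (r q.1) a)}) := by
      ext q
      simp only [Γ, CvP, Set.mem_inter_iff, Set.mem_iInter, Set.mem_setOf_eq]
      constructor
      · rintro ⟨h1, h2, h3⟩
        exact ⟨⟨h1, h2⟩, fun a => h3 _ (hr q.1) a⟩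
      · rintro ⟨⟨h1, h2⟩, h3⟩
        refine ⟨h1, h2, fun γ hγ a => ?_⟩
        rw [conv_restr_uniq q.1 γ (r q.1) hγ (hr q.1)]
        exact h3 a
    have hclosed : IsClosed Γ := by
      rw [hΓ]
      refine (IsClosed.inter (isClosed_iInter fun y => ?_) (isClosed_iInter fun b => ?_)).inter
        (isClosed_iInter fun a => ?_)
      · exact (isClosed_discrete {z : U | z ∈ W' ↔ y ∈ W'}).preimage (hc1 y)
      · exact isClosed_eq (hc1 _) (continuous_of_discreteTopology.comp (hc2 b))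
      · exact isClosed_eq (hc1 _) (continuous_of_discreteTopology.comp ((hc3 a).comp continuous_fst))
    haveI : CompactSpace Γ := isCompact_iff_compactSpace.1 hclosed.isCompact
    let e : Γ ≃ (Fb ≃ₐ[F] Fb) :=
      { toFun := fun q => q.1.1
        invFun := fun g => ⟨(g, σ g), hσ g⟩
        left_inv := by
          rintro ⟨⟨g, h⟩, hq⟩
          apply Subtype.ext
          exact Prod.ext rfl (huq g _ _ (hσ g) hq)
        right_inv := fun g => rfl }
    have he : Continuous e := continuous_fst.comp continuous_subtype_val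
    have h1 : Continuous e.symm := (he.homeoOfEquivCompactToT2).symm.continuous
    exact continuous_snd.comp (continuous_subtype_val.comp h1)
  · intro g b
    exact (hσ g).2.1 b
  · intro γ g hγ a
    exact (hσ g).2.2 γ hγ a

end

end Pool.Agent.Helper1.BSX
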