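import Pool.Agent.Helper1.BSX.Conv

/-!
# Geometric sections extend: the hypotheses of the gluing theorem
-/

set_option autoImplicit false

namespace Pool.Agent.Helper1.BSX

open Polynomial Pool.Agent.Helper14.BSC Pool.Agent.Helper14.BSC.Gen

section

variable {k K kb Ω F M Fb U : Type} [Field k] [Field K] [Field kb] [Field Ω] [Field F] [Field M]
  [Field Fb] [Field U]
  [Algebra k K] [Algebra k kb] [Algebra k Ω] [Algebra kb Ω] [Algebra K Ω]
  [IsScalarTower k K Ω] [IsScalarTower k kb Ω]
  [Algebra F M] [Algebra F Fb] [Algebra F U] [Algebra Fb U] [Algebra M U]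
  [IsScalarTower F M U] [IsScalarTower F Fb U]
  [Algebra k F] [Algebra k Fb] [Algebra kb Fb] [IsScalarTower k F Fb] [IsScalarTower k kb Fb]
  [Algebra K M] [Algebra k M] [IsScalarTower k K M] [IsScalarTower k F M]
  [Algebra Ω U] [Algebra K U] [IsScalarTower K M U] [IsScalarTower K Ω U]
  [Algebra kb U] [IsScalarTower kb Ω U] [IsScalarTower kb Fb U]

theorem cv_resC [IsAlgClosed Ω] [IsAlgClosure k kb] [Algebra.IsAlgebraic K Ω]
    (O : ValuationSubring K) (hO1 : ∀ c : k, algebraMap k K c ∈ O)
    (hO2 : ∀ a ∈ O, ∃ c : k, O.valuation (a - algebraMap k K c) < 1)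
    (W : ValuationSubring Ω) (hW : W.comap (algebraMap K Ω) = O) : ResC kb Ω W := by
  have hk : ∀ c : k, algebraMap k Ω c ∈ W := by
    intro c
    have h1 := hO1 c
    rw [← hW] at h1
    rw [IsScalarTower.algebraMap_apply k K Ω]
    exact h1
  have hka : Algebra.IsAlgebraic k kb := IsAlgClosure.isAlgebraic
  have hres : ∀ a : K, algebraMap K Ω a ∈ W →
      ∃ c : k, W.valuation (algebraMap K Ω a - algebraMap k Ω c) < 1 := by
    intro a ha
    have ha' : a ∈ O := by rw [← hW]; exact ha
    obtain ⟨c, hc⟩ := hO2 a ha'
    refine ⟨c, ?_⟩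
    rw [← ValuationSubring.mem_nonunits_iff, ValuationSubring.mem_nonunits_iff_or] at hc ⊢
    have h1 : algebraMap K Ω a - algebraMap k Ω c = algebraMap K Ω (a - algebraMap k K c) := by
      rw [map_sub, ← IsScalarTower.algebraMap_apply]
    rw [h1]
    rcases hc with hc | hc
    · left; rw [hc, map_zero]
    · right
      rw [← map_inv₀]
      intro h2
      apply hc
      rw [← hW]
      exact h2
  refine ⟨fun c => ?_, fun a ha => ?_⟩
  · exact res_valg W hk _ ((hka.isAlgebraic c).algebraMap)
  · obtain ⟨g, hg, hga⟩ := res_red K W hres a ha (Algebra.IsAlgebraic.isAlgebraic a)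
    obtain ⟨b, hb⟩ := res_root W hk a g hg hga
    refine ⟨(topE k kb Ω).symm b, ?_⟩
    rw [← topE_coe (k := k) (kb := kb) (Ω := Ω), AlgEquiv.apply_symm_apply]
    exact hb

theorem cv_free [IsAlgClosure k kb] [IsAlgClosure F Fb] [Algebra.IsAlgebraic K Ω]
    [Algebra.IsAlgebraic M U] [IsAlgClosed U]
    (hM : IntermediateField.adjoin F (Set.range (algebraMap K M)) = ⊤) (t : K)
    (htK : Algebra.IsAlgebraic (IntermediateField.adjoin k {t}) K)
    (htM : Transcendental F (algebraMap K M t)) : FreeX kb Ω Fb U (algebraMap K Ω t) := by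
  have htU : algebraMap Ω U (algebraMap K Ω t) = algebraMap M U (algebraMap K M t) := by
    rw [← IsScalarTower.algebraMap_apply, IsScalarTower.algebraMap_apply K M U]
  have hFb : Algebra.IsAlgebraic F Fb := IsAlgClosure.isAlgebraic
  -- elements of `K` are algebraic over `k(t)`
  have hK1 : ∀ z : K, IsAlgebraic (IntermediateField.adjoin kb {algebraMap K Ω t})
      (algebraMap K Ω z) := by
    intro z
    have h1 := htK.isAlgebraic z
    have h2 : IsAlgebraic (IntermediateField.adjoin k {t}) (algebraMap K Ω z) := h1.algebraMap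
    refine gen_alg (A := IntermediateField.adjoin k {t}) ?_ ?_ h2
    · exact (algebraMap (IntermediateField.adjoin k {t}) Ω).injective
    · rintro ⟨a, ha⟩
      change ∃ r : IntermediateField.adjoin kb {algebraMap K Ω t}, (r : Ω) = algebraMap K Ω a
      refine ⟨⟨algebraMap K Ω a, ?_⟩, rfl⟩
      induction ha using IntermediateField.adjoin_induction with
      | mem y hy =>
        rw [Set.mem_singleton_iff] at hy
        rw [hy]
        exact IntermediateField.mem_adjoin_simple_self kb _
      | algebraMap c =>
        rw [← IsScalarTower.algebraMap_apply, IsScalarTower.algebraMap_apply k kb Ω]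
        exact IntermediateField.algebraMap_mem _ _
      | add u v _ _ hu hv => rw [map_add]; exact add_mem hu hv
      | inv u _ hu => rw [map_inv₀]; exact inv_mem hu
      | mul u v _ _ hu hv => rw [map_mul]; exact mul_mem hu hv
  refine ⟨⟨fun z => ?_⟩, ?_, ⟨fun z => ?_⟩⟩
  · -- `Ω` is algebraic over `kb(t)`
    let S := algebraicClosure (IntermediateField.adjoin kb {algebraMap K Ω t}) Ω
    have h1 : IsAlgebraic K z := Algebra.IsAlgebraic.isAlgebraic z
    have h2 : IsAlgebraic S z := by
      refine gen_alg (A := K) (algebraMap K Ω).injective (fun a => ?_) h1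
      exact ⟨⟨algebraMap K Ω a, mem_algebraicClosure_iff.2 (hK1 a)⟩, rfl⟩
    have h3 : Algebra.IsAlgebraic (IntermediateField.adjoin kb {algebraMap K Ω t}) S :=
      inferInstance
    exact h2.restrictScalars (IntermediateField.adjoin kb {algebraMap K Ω t})
  · rw [htU]
    intro h
    have h1 : IsAlgebraic F (algebraMap M U (algebraMap K M t)) :=
      h.restrictScalars F
    exact htM ((isAlgebraic_algebraMap_iff (algebraMap M U).injective).1 h1)
  · let S := algebraicClosure (IntermediateField.adjoin Fb {algebraMap Ω U (algebraMap K Ω t)}) U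
    have h1 : IsAlgebraic M z := Algebra.IsAlgebraic.isAlgebraic z
    have hKU : ∀ y : K, IsAlgebraic (IntermediateField.adjoin Fb
        {algebraMap Ω U (algebraMap K Ω t)}) (algebraMap K U y) := by
      intro y
      have h1 := htK.isAlgebraic y
      obtain ⟨P, hP, hPy⟩ := h1
      have h2 : IsAlgebraic (IntermediateField.adjoin k {t}) y := ⟨P, hP, hPy⟩
      have h3 : IsAlgebraic (IntermediateField.adjoin k {t}) (algebraMap K U y) := h2.algebraMap
      refine gen_alg (A := IntermediateField.adjoin k {t}) ?_ ?_ h3
      · exact (algebraMap (IntermediateField.adjoin k {t}) U).injective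
      · rintro ⟨a, ha⟩
        change ∃ r : IntermediateField.adjoin Fb {algebraMap Ω U (algebraMap K Ω t)},
          (r : U) = algebraMap K U a
        refine ⟨⟨algebraMap K U a, ?_⟩, rfl⟩
        induction ha using IntermediateField.adjoin_induction with
        | mem y hy =>
          rw [Set.mem_singleton_iff] at hy
          rw [hy, IsScalarTower.algebraMap_apply K Ω U]
          exact IntermediateField.mem_adjoin_simple_self Fb _
        | algebraMap c =>
          have h4 : algebraMap K U (algebraMap k K c) = algebraMap Fb U (algebraMap F Fb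
              (algebraMap k F c)) := by
            rw [IsScalarTower.algebraMap_apply K M U, ← IsScalarTower.algebraMap_apply k K M,
              IsScalarTower.algebraMap_apply k F M, ← IsScalarTower.algebraMap_apply F M U,
              IsScalarTower.algebraMap_apply F Fb U]
          rw [h4]
          exact IntermediateField.algebraMap_mem _ _
        | add u v _ _ hu hv => rw [map_add]; exact add_mem hu hv
        | inv u _ hu => rw [map_inv₀]; exact inv_mem hu
        | mul u v _ _ hu hv => rw [map_mul]; exact mul_mem hu hv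
    have h2 : IsAlgebraic S z := by
      refine gen_alg (A := M) (algebraMap M U).injective (fun a => ?_) h1
      have hm : a ∈ IntermediateField.adjoin F (Set.range (algebraMap K M)) := by
        rw [hM]; trivial
      have h5 : algebraMap M U a ∈ S := by
        induction hm using IntermediateField.adjoin_induction with
        | mem y hy =>
          obtain ⟨c, rfl⟩ := hy
          rw [← IsScalarTower.algebraMap_apply K M U]
          exact mem_algebraicClosure_iff.2 (hKU c)
        | algebraMap c =>
          rw [← IsScalarTower.algebraMap_apply F M U, IsScalarTower.algebraMap_apply F Fb U]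
          refine mem_algebraicClosure_iff.2 ?_
          exact isAlgebraic_algebraMap (⟨algebraMap Fb U (algebraMap F Fb c),
            IntermediateField.algebraMap_mem _ _⟩ :
              IntermediateField.adjoin Fb {algebraMap Ω U (algebraMap K Ω t)})
        | add u v _ _ hu hv => rw [map_add]; exact add_mem hu hv
        | inv u _ hu => rw [map_inv₀]; exact inv_mem hu
        | mul u v _ _ hu hv => rw [map_mul]; exact mul_mem hu hv
      exact ⟨⟨algebraMap M U a, h5⟩, rfl⟩
    have h3 : Algebra.IsAlgebraic (IntermediateField.adjoin Fb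
      {algebraMap Ω U (algebraMap K Ω t)}) S := inferInstance
    exact h2.restrictScalars (IntermediateField.adjoin Fb {algebraMap Ω U (algebraMap K Ω t)})

/-- geometric sections extend -/
theorem cv_top (hLD : ST_LD) (hH0 : ST_H0) (hCONJ : ST_CONJ) (hWX : ST_WX) (hGAU : ST_GAU)
    (hDEC : ST_DEC) [CharZero k] [IsAlgClosure k kb] [IsAlgClosure K Ω]
    [IsAlgClosure F Fb] [IsAlgClosure M U]
    (hM : IntermediateField.adjoin F (Set.range (algebraMap K M)) = ⊤) (t : K)
    (htK : Algebra.IsAlgebraic (IntermediateField.adjoin k {t}) K)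
    (htM : Transcendental F (algebraMap K M t))
    (s : (kb ≃ₐ[k] kb) →* (Ω ≃ₐ[K] Ω)) (hs : IsSection s) (hg : IsGeometric s) :
    ∃ s' : (Fb ≃ₐ[F] Fb) →* (U ≃ₐ[M] U), IsSection s' ∧ Ext s s' := by
  have hcl1 : IsAlgClosed kb := IsAlgClosure.isAlgClosed k
  have hcl2 : IsAlgClosed Ω := IsAlgClosure.isAlgClosed K
  have hcl3 : IsAlgClosed Fb := IsAlgClosure.isAlgClosed F
  have hcl4 : IsAlgClosed U := IsAlgClosure.isAlgClosed M
  have ha1 : Algebra.IsAlgebraic K Ω := IsAlgClosure.isAlgebraic
  have ha2 : Algebra.IsAlgebraic M U := IsAlgClosure.isAlgebraic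
  have hckb : CharZero kb := charZero_of_injective_algebraMap (algebraMap k kb).injective
  have hcM : CharZero M := charZero_of_injective_algebraMap (algebraMap k M).injective
  have hcU : CharZero U := charZero_of_injective_algebraMap (algebraMap M U).injective
  obtain ⟨O, ⟨-, hO1, hO2, W, hW, hinv⟩, -⟩ := hg
  have hx := cv_free (kb := kb) (Ω := Ω) (Fb := Fb) (U := U) hM t htK htM
  have hL := hLD kb Ω Fb U _ hx
  have hres := cv_resC (kb := kb) O hO1 hO2 W hW
  obtain ⟨W', hW'⟩ := hWX kb Ω Fb U hL W hres
  exact conv_sec hH0 hCONJ hGAU hDEC hM _ hx hL s hs W hres hinv W' hW'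

end

end Pool.Agent.Helper1.BSX
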