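import Pool.Agent.Helper14.BSC.Stmts2
import Pool.Agent.Helper38.BSC.PIV
import Pool.Agent.Helper64.BSC.ONE4
import Pool.Agent.Helper51.BSC.FIN

/-!
# Birational sections over function fields: the core argument

`F` is a finite extension of `RatFunc k'`.  If `f` is in the fixed field of a section over `F` and the
value of `f` at all places over `σ : k' → ℂ_p` and `t ↦ τ` does not depend on `τ`, then it is a root of
a fixed polynomial over `k'`.
-/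

set_option autoImplicit false

namespace Pool.Agent.Helper1.BSX

open Polynomial Filter Topology Pool.Agent.Helper14.BSC

/-- a family of specializations `t ↦ τ_M → θ` of `RatFunc F` -/
theorem fam {F : Type} [Field F] [Countable F] {p : ℕ} [Fact p.Prime] (σ : F →+* ℂ_[p])
    (θ : ℂ_[p]) (E : IntermediateField ℚ_[p] ℂ_[p]) (hσE : ∀ x, σ x ∈ E) (hθE : θ ∈ E) :
    ∃ J : ℕ → (RatFunc F →+* ℂ_[p]),
      (∀ M x, J M x ∈ E) ∧ (∀ M c, J M (algebraMap F (RatFunc F) c) = σ c) ∧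
      (∀ M, ‖J M RatFunc.X - θ‖ = (p : ℝ) ^ (-(M : ℤ))) ∧
      ∀ x : RatFunc F, x ≠ 0 → ∃ v : ℤ, piv_Ev J x v ∧
        (((x.num * x.denom).map σ).eval θ ≠ 0 → v = 0) := by
  choose v hv1 hv2 using fun M => piv_tau (p := p) σ θ M
  obtain ⟨τ, hτdef⟩ : ∃ τ : ℕ → ℂ_[p],
      τ = fun M => θ + (p : ℂ_[p]) ^ M * algebraMap ℚ_[p] ℂ_[p] (v M) := ⟨_, rfl⟩
  have hτE : ∀ M, τ M ∈ E := by
    intro M
    rw [hτdef]
    refine add_mem hθE (mul_mem (pow_mem ?_ M) (E.algebraMap_mem _))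
    exact natCast_mem E p
  have htr : ∀ M, ∀ f : F[X], f ≠ 0 → f.eval₂ σ (τ M) ≠ 0 := by
    intro M f hf
    rw [hτdef]
    exact hv2 M f hf
  have hpn : ‖(p : ℂ_[p])‖ = (p : ℝ)⁻¹ := by
    have h1 := PadicComplex.norm_extends' p (p : ℚ_[p])
    have h2 : ((p : ℚ_[p]) : ℂ_[p]) = (p : ℂ_[p]) := by simp
    rw [h2] at h1
    rw [h1, Padic.norm_p]
  have hτn : ∀ M, ‖τ M - θ‖ = (p : ℝ) ^ (-(M : ℤ)) := by
    intro M
    have h1 : τ M - θ = (p : ℂ_[p]) ^ M * algebraMap ℚ_[p] ℂ_[p] (v M) := by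
      rw [hτdef]; simp
    have h2 : ‖algebraMap ℚ_[p] ℂ_[p] (v M)‖ = 1 := by
      have := PadicComplex.norm_extends' p (v M)
      rw [hv1 M] at this
      exact this
    rw [h1, norm_mul, norm_pow, hpn, h2, mul_one, zpow_neg, zpow_natCast, inv_pow]
  have hp1 : (1 : ℝ) < p := by exact_mod_cast (Fact.out : p.Prime).one_lt
  have hp0 : (0 : ℝ) < p := by linarith
  have hτt : Tendsto τ atTop (𝓝 θ) := by
    rw [tendsto_iff_norm_sub_tendsto_zero]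
    have h1 : Tendsto (fun M : ℕ => ((p : ℝ)⁻¹) ^ M) atTop (𝓝 0) :=
      tendsto_pow_atTop_nhds_zero_of_lt_one (by positivity) (inv_lt_one_of_one_lt₀ hp1)
    refine h1.congr fun M => ?_
    rw [hτn M, zpow_neg, zpow_natCast, inv_pow]
  have hinj : ∀ M, Function.Injective (Polynomial.eval₂RingHom σ (τ M)) := by
    intro M
    rw [injective_iff_map_eq_zero]
    intro f hf
    by_contra hne
    exact htr M f hne hf
  let J : ℕ → (RatFunc F →+* ℂ_[p]) := fun M => RatFunc.liftRingHom (Polynomial.eval₂RingHom σ (τ M))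
    (nonZeroDivisors_le_comap_nonZeroDivisors_of_injective _ (hinj M))
  have hJ : ∀ M (f : F[X]), J M (algebraMap F[X] (RatFunc F) f) = f.eval₂ σ (τ M) := by
    intro M f
    exact RatFunc.liftRingHom_algebraMap _ _ f
  -- polynomials
  have hpoly : ∀ A : F[X], A ≠ 0 → ∃ m : ℕ, piv_Ev J (algebraMap F[X] (RatFunc F) A) m ∧
      ((A.map σ).eval θ ≠ 0 → m = 0) := by
    intro A hA
    have hA' : A.map σ ≠ 0 := (Polynomial.map_ne_zero_iff σ.injective).2 hA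
    obtain ⟨q, hq, hqθ⟩ := Polynomial.exists_eq_pow_rootMultiplicity_mul_and_not_dvd (A.map σ) hA' θ
    have hqθ' : q.eval θ ≠ 0 := by
      intro h
      exact hqθ (Polynomial.dvd_iff_isRoot.2 h)
    obtain ⟨m, hm⟩ : ∃ m, m = (A.map σ).rootMultiplicity θ := ⟨_, rfl⟩
    rw [← hm] at hq
    obtain ⟨M₀, hM₀⟩ := piv_event q θ τ hτt hqθ'
    refine ⟨m, ⟨‖q.eval θ‖, norm_pos_iff.2 hqθ', M₀, fun M hM => ?_⟩, fun h => ?_⟩
    · rw [hJ, ← eval_map, hq, eval_mul, eval_pow, eval_sub, eval_X, eval_C, norm_mul, norm_pow,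
        hτn M, hM₀ M hM, ← zpow_natCast, ← zpow_mul, mul_comm]
      congr 2
      ring
    · rw [hm]
      exact Polynomial.rootMultiplicity_eq_zero h
  refine ⟨J, ?_, ?_, ?_, ?_⟩
  · intro M x
    have h1 : ∀ f : F[X], f.eval₂ σ (τ M) ∈ E := by
      intro f
      rw [eval₂_eq_sum_range]
      exact sum_mem fun i _ => mul_mem (hσE _) (pow_mem (hτE M) i)
    rw [← RatFunc.num_div_denom x, map_div₀, hJ, hJ]
    exact div_mem (h1 _) (h1 _)
  · intro M c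
    have h1 : algebraMap F (RatFunc F) c = algebraMap F[X] (RatFunc F) (C c) := by
      rw [IsScalarTower.algebraMap_apply F F[X] (RatFunc F)]
      rfl
    rw [h1, hJ, eval₂_C]
  · intro M
    rw [← RatFunc.algebraMap_X, hJ, eval₂_X]
    exact hτn M
  · intro x hx
    obtain ⟨m₁, h1, h1'⟩ := hpoly x.num (RatFunc.num_ne_zero hx)
    obtain ⟨m₂, h2, h2'⟩ := hpoly x.denom (RatFunc.denom_ne_zero x)
    have hd : algebraMap F[X] (RatFunc F) x.denom ≠ 0 := by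
      rw [Ne, map_eq_zero_iff _ (IsFractionRing.injective F[X] (RatFunc F))]
      exact RatFunc.denom_ne_zero x
    refine ⟨(m₁ : ℤ) - m₂, ?_, ?_⟩
    · obtain ⟨C₁, hC₁, M₁, hM₁⟩ := h1
      obtain ⟨C₂, hC₂, M₂, hM₂⟩ := h2
      refine ⟨C₁ / C₂, by positivity, max M₁ M₂, fun M hM => ?_⟩
      have e1 := hM₁ M ((le_max_left _ _).trans hM)
      have e2 := hM₂ M ((le_max_right _ _).trans hM)
      have e3 : J M x = J M (algebraMap F[X] (RatFunc F) x.num) /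
          J M (algebraMap F[X] (RatFunc F) x.denom) := by
        rw [← map_div₀, RatFunc.num_div_denom]
      have hpz : (p : ℝ) ≠ 0 := hp0.ne'
      rw [e3, norm_div, e1, e2, mul_sub, neg_sub, zpow_sub₀ hpz, zpow_neg, zpow_neg]
      field_simp
    · intro h
      rw [Polynomial.map_mul, eval_mul] at h
      have h3 := h1' (left_ne_zero_of_mul h)
      have h4 := h2' (right_ne_zero_of_mul h)
      rw [h3, h4]
      simp

/-- the value of a place is in `P.E` -/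
theorem place_mem {k Ω : Type} [Field k] [Field Ω] [Algebra k Ω] {D : Sec k Ω} {p : ℕ}
    [Fact p.Prime] {σ : k →+* ℂ_[p]} (P : Place D p σ) (x : LL D) (h : x ∈ P.C) :
    P.φ ⟨x, h⟩ ∈ P.E := by
  by_cases h0 : P.φ ⟨x, h⟩ = 0
  · rw [h0]; exact zero_mem _
  have hfin : FiniteDimensional ℚ_[p] P.E := P.finE
  have hcl : IsClosed (P.E : Set ℂ_[p]) :=
    Submodule.closed_of_finiteDimensional (Subalgebra.toSubmodule P.E.toSubalgebra)
  have h1 : P.φ ⟨x, h⟩ ∈ closure (P.E : Set ℂ_[p]) := by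
    rw [Metric.mem_closure_iff]
    intro ε hε
    obtain ⟨w, hw, y, hy, hyd, h2⟩ := P.kum ⟨x, h⟩ h0 1 one_pos ε hε 1 x (by
      rw [map_one, one_mul, pow_one])
    refine ⟨y, hy, ?_⟩
    rw [dist_comm, dist_eq_norm]
    exact hyd
  rwa [hcl.closure_eq] at h1

/-- two places over the same embedding have the same values -/
theorem place_eq (hKUM : ST_KUM) (hBOT : ST_BOT) (hLIM : ST_LIM) {k Ω : Type} [Field k] [Field Ω]
    [Algebra k Ω] [CharZero k] [IsAlgClosed Ω] {D : Sec k Ω} {p : ℕ}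
    [Fact p.Prime] {σ : k →+* ℂ_[p]} (P Q : Place D p σ) {x : LL D} {z z' : ℂ_[p]}
    (h : fin_Val P x z) (h' : fin_Val Q x z') (hz : z ≠ 0) (hz' : z' ≠ 0) : z = z' := by
  obtain ⟨hP, hPz⟩ := h
  obtain ⟨hQ, hQz⟩ := h'
  have hx : x ≠ 0 := by
    rintro rfl
    apply hz
    rw [← hPz]
    exact map_zero P.φ
  have i1 : FiniteDimensional ℚ_[p] P.E := P.finE
  have i2 : FiniteDimensional ℚ_[p] Q.E := Q.finE
  have hEfin : FiniteDimensional ℚ_[p] (P.E ⊔ Q.E : IntermediateField ℚ_[p] ℂ_[p]) :=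
    IntermediateField.finiteDimensional_sup _ _
  have hP0 : P.φ ⟨x, hP⟩ ≠ 0 := by rw [hPz]; exact hz
  have hQ0 : Q.φ ⟨x, hQ⟩ ≠ 0 := by rw [hQz]; exact hz'
  have key : z / z' = 1 := by
    refine hLIM p _ hEfin _ (div_ne_zero hz hz') ?_
    intro n hn δ hδ
    have hcont : ContinuousAt (fun y : ℂ_[p] × ℂ_[p] => y.1 / y.2) (z, z') :=
      ContinuousAt.div continuousAt_fst continuousAt_snd hz'
    obtain ⟨δ', hδ', hδ''⟩ := Metric.continuousAt_iff.1 hcont δ hδ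
    obtain ⟨c, g, hcg⟩ := one4_rep hKUM hBOT D x hx n
    obtain ⟨hc, hg, hcg⟩ := hcg hn
    obtain ⟨w, hw, y, hy, hyd, h1⟩ := P.kum ⟨x, hP⟩ hP0 n hn δ' hδ' c g hcg
    obtain ⟨w', hw', y', hy', hyd', h1'⟩ := Q.kum ⟨x, hQ⟩ hQ0 n hn δ' hδ' c g hcg
    rw [hPz] at hyd
    rw [hQz] at hyd'
    have hσc : σ c ≠ 0 := by rw [Ne, map_eq_zero]; exact hc
    have hw0 : w ≠ 0 := by
      rintro rfl
      apply hσc
      rw [h1, zero_pow hn.ne', mul_zero]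
    have hy'0 : y' ≠ 0 := by
      rintro rfl
      apply hσc
      rw [h1', zero_mul]
    refine ⟨w' / w, div_mem ((le_sup_right : Q.E ≤ P.E ⊔ Q.E) hw')
      ((le_sup_left : P.E ≤ P.E ⊔ Q.E) hw), ?_⟩
    have h2 : (w' / w) ^ n = y / y' := by
      rw [div_pow, div_eq_div_iff (pow_ne_zero _ hw0) hy'0]
      linear_combination h1 - h1'
    have h3 : dist (y, y') (z, z') < δ' := by
      rw [Prod.dist_eq, max_lt_iff, dist_eq_norm, dist_eq_norm]
      exact ⟨hyd, hyd'⟩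
    have h4 : dist (y / y') (z / z') < δ := hδ'' h3
    rw [h2, ← dist_eq_norm]
    exact h4
  exact (div_eq_one_iff_eq hz').1 key

theorem place_unique (hKUM : ST_KUM) (hBOT : ST_BOT) (hLIM : ST_LIM) {k Ω : Type} [Field k]
    [Field Ω] [Algebra k Ω] [CharZero k] [IsAlgClosed Ω] {D : Sec k Ω} {p : ℕ}
    [Fact p.Prime] {σ : k →+* ℂ_[p]} (P Q : Place D p σ) {x : LL D} {z : ℂ_[p]}
    (h : fin_Val P x z) : fin_Val Q x z := by
  have hnat : ∀ n : ℕ, fin_Val P ((n : ℕ) : LL D) n ∧ fin_Val Q ((n : ℕ) : LL D) n := by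
    intro n
    have h1 := fin_const P (n : k)
    have h2 := fin_const Q (n : k)
    rw [map_natCast, map_natCast] at h1 h2
    exact ⟨h1, h2⟩
  have havoid : ∀ S : Finset ℂ_[p], ∃ n : ℕ, ((n : ℕ) : ℂ_[p]) ∉ S := by
    intro S
    obtain ⟨n, hn⟩ := Infinite.exists_notMem_finset (S.preimage (fun n : ℕ => (n : ℂ_[p]))
      (Nat.cast_injective.injOn))
    exact ⟨n, fun h => hn (Finset.mem_preimage.2 h)⟩
  classical
  by_cases hQ : x ∈ Q.C
  · obtain ⟨n, hn⟩ := havoid {z, Q.φ ⟨x, hQ⟩}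
    rw [Finset.mem_insert, Finset.mem_singleton, not_or] at hn
    have hq : fin_Val Q x (Q.φ ⟨x, hQ⟩) := ⟨hQ, rfl⟩
    have h3 := place_eq hKUM hBOT hLIM P Q (fin_sub h (hnat n).1) (fin_sub hq (hnat n).2)
      (sub_ne_zero.2 (Ne.symm hn.1)) (sub_ne_zero.2 (Ne.symm hn.2))
    have h4 : z = Q.φ ⟨x, hQ⟩ := by linear_combination h3
    rw [h4]
    exact hq
  · exfalso
    -- `x - n` is infinite at `Q`
    obtain ⟨n, hn⟩ := havoid {z, z + 1}
    rw [Finset.mem_insert, Finset.mem_singleton, not_or] at hn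
    have hzn : z - n ≠ 0 := sub_ne_zero.2 (Ne.symm hn.1)
    have h3 : x - (n : LL D) ∉ Q.C := by
      intro h4
      apply hQ
      have h5 := add_mem h4 (hnat n).2.1
      rwa [sub_add_cancel] at h5
    have h4 := fin_inf h3
    have h5 := fin_inv (fin_sub h (hnat n).1) hzn
    have h6 := (hnat 1).1
    have h7 := (hnat 1).2
    rw [Nat.cast_one, Nat.cast_one] at h6 h7
    have hne : (z - n)⁻¹ + 1 ≠ 0 := by
      intro h8
      apply hn.2
      have h9 : (z - n)⁻¹ = -1 := by linear_combination h8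
      have h10 : z - n = -1 := by rw [← inv_inv (z - n), h9, inv_neg, inv_one]
      linear_combination -h10
    have h8 := place_eq hKUM hBOT hLIM P Q (fin_add h5 h6) (fin_add h4 h7) hne (by
      rw [zero_add]; exact one_ne_zero)
    have h9 : (z - n)⁻¹ = 0 := by linear_combination h8
    exact hzn (inv_eq_zero.1 h9)

/-- the core lemma -/
theorem core (hKUM : ST_KUM) (hROOT : ST_ROOT) (hBOT : ST_BOT) (hEFIN : ST_EFIN) (hRK : ST_RK)
    (hTSX : ST_TSX) {k' F Ω' : Type} [Field k'] [CharZero k'] [Countable k'] [Field F] [CharZero F]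
    [Algebra (RatFunc k') F] [FiniteDimensional (RatFunc k') F] [Field Ω'] [Algebra F Ω']
    [IsAlgClosed Ω'] (D' : Sec F Ω') (f' : LL D') :
    ∃ R : k'[X], R ≠ 0 ∧ ∀ (p : ℕ) [Fact p.Prime] (σ : k' →+* ℂ_[p])
      (E : IntermediateField ℚ_[p] ℂ_[p]), FiniteDimensional ℚ_[p] E → (∀ x, σ x ∈ E) →
      ∀ β ∈ E, (∀ σ' : F →+* ℂ_[p], FinI σ' →
        (∀ c : k', σ' (algebraMap (RatFunc k') F (algebraMap k' (RatFunc k') c)) = σ c) →
        ∀ P' : Place D' p σ', fin_Val P' f' β) → (R.map σ).eval β = 0 := by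
  classical
  obtain ⟨T₀, hT₀⟩ : ∃ T₀ : LL D', T₀ = f' - algebraMap F (LL D')
      (algebraMap (RatFunc k') F RatFunc.X) := ⟨_, rfl⟩
  -- values of `T₀`
  have hval : ∀ (p : ℕ) [Fact p.Prime] (σ : k' →+* ℂ_[p]) (β : ℂ_[p]),
      (∀ σ' : F →+* ℂ_[p], FinI σ' →
        (∀ c : k', σ' (algebraMap (RatFunc k') F (algebraMap k' (RatFunc k') c)) = σ c) →
        ∀ P' : Place D' p σ', fin_Val P' f' β) →
      ∀ σ' : F →+* ℂ_[p], FinI σ' →
        (∀ c : k', σ' (algebraMap (RatFunc k') F (algebraMap k' (RatFunc k') c)) = σ c) →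
        ∀ P' : Place D' p σ', fin_Val P' T₀ (β - σ' (algebraMap (RatFunc k') F RatFunc.X)) := by
    intro p _ σ β h σ' h1 h2 P'
    rw [hT₀]
    exact fin_sub (h σ' h1 h2 P') (fin_const P' _)
  by_cases hT : T₀ = 0
  · refine ⟨1, one_ne_zero, fun p _ σ E hE hσE β hβ h => ?_⟩
    exfalso
    obtain ⟨J, hJE, hJc, hJX, -⟩ := fam σ β E hσE hβ
    obtain ⟨T, hTj, -, hT1⟩ := hTSX F (RatFunc k') p (J 0) E hE (hJE 0)
    obtain ⟨E₁, hE₁, hσE₁, -⟩ := hT1 ⟨0, T.pos⟩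
    obtain ⟨P', -⟩ := hRK F Ω' D' p (T.σ ⟨0, T.pos⟩) E₁ hE₁ hσE₁
    have h1 := hval p σ β h (T.σ ⟨0, T.pos⟩) ⟨E₁, hE₁, hσE₁⟩ (fun c => by
      rw [T.res, hTj, hJc]) P'
    rw [hT] at h1
    have h2 : fin_Val P' (0 : LL D') 0 := by
      have := fin_const P' (0 : F)
      rwa [map_zero, map_zero] at this
    have h3 := fin_uniq h1 h2
    rw [T.res, hTj] at h3
    have h4 := hJX 0
    have h5 : J 0 RatFunc.X - β = 0 := by linear_combination -h3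
    rw [h5, norm_zero] at h4
    have hp : (0 : ℝ) < (p : ℝ) ^ (-((0 : ℕ) : ℤ)) := by simp
    exact absurd h4 hp.ne
  -- the classes
  choose c g hcg using one4_rep hKUM hBOT D' T₀ hT
  obtain ⟨d, hd⟩ : ∃ d, d = Module.finrank (RatFunc k') F := ⟨_, rfl⟩
  have hdpos : 0 < d := by rw [hd]; exact Module.finrank_pos
  obtain ⟨b, hb⟩ : ∃ b : ℕ → RatFunc k', b = fun N => Algebra.norm (RatFunc k') (c N) := ⟨_, rfl⟩
  have hb0 : ∀ N, 0 < N → b N ≠ 0 := by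
    intro N hN
    rw [hb]
    exact (Algebra.norm_ne_zero_iff).mpr (hcg N hN).1
  have hcls : ∀ N M, 0 < N → 0 < M → ∃ t : RatFunc k', b (N * M) = b N * t ^ N := by
    intro N M hN hM
    obtain ⟨h1, _, h2⟩ := hcg N hN
    obtain ⟨h3, h4, h5⟩ := hcg (N * M) (Nat.mul_pos hN hM)
    obtain ⟨r, hr⟩ := one4_cls hROOT hBOT D' T₀ _ _ _ _ N M hN h1 h4 h2 h5
    refine ⟨Algebra.norm (RatFunc k') r, ?_⟩
    rw [hb]
    show Algebra.norm (RatFunc k') (c (N * M)) = Algebra.norm (RatFunc k') (c N) * _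
    rw [hr, map_mul, map_pow]
  obtain ⟨N₀, hN₀⟩ : ∃ N₀, N₀ = d + 1 := ⟨_, rfl⟩
  have hN₀pos : 0 < N₀ := by omega
  refine ⟨(b N₀).num * (b N₀).denom, mul_ne_zero (RatFunc.num_ne_zero (hb0 N₀ hN₀pos))
    (RatFunc.denom_ne_zero _), fun p _ σ E hE hσE β hβ h => ?_⟩
  by_contra hroot
  obtain ⟨J, hJE, hJc, hJX, hJv⟩ := fam σ β E hσE hβ
  obtain ⟨e, _, he, _, hEe⟩ := hEFIN p E hE
  have hp1 : (1 : ℝ) < p := by exact_mod_cast (Fact.out : p.Prime).one_lt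
  have hp0 : (0 : ℝ) < p := by linarith
  obtain ⟨D₀, hD₀⟩ : ∃ D₀, D₀ = (12 * p).factorial * d.factorial := ⟨_, rfl⟩
  have hD₀pos : 0 < D₀ := by
    rw [hD₀]; exact Nat.mul_pos (Nat.factorial_pos _) (Nat.factorial_pos _)
  -- the norm relation
  have hstep : ∀ N, 0 < N → ∀ M, ∃ j : ℤ, ‖J M (b N)‖ ^ (D₀ * e) =
      (p : ℝ) ^ (-((M : ℤ) * d * (D₀ * e : ℕ)) + j * N) := by
    intro N hN M
    obtain ⟨T, hTj, -, hT1⟩ := hTSX F (RatFunc k') p (J M) E hE (hJE M)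
    choose E₁ hE₁ hσE₁ hE₁n using hT1
    choose P' hP' using fun i => hRK F Ω' D' p (T.σ i) (E₁ i) (hE₁ i) (hσE₁ i)
    have hv : ∀ i, fin_Val (P' i) T₀ (β - J M RatFunc.X) := by
      intro i
      have h1 := hval p σ β h (T.σ i) ⟨E₁ i, hE₁ i, hσE₁ i⟩ (fun c => by
        rw [T.res, hTj, hJc]) (P' i)
      rwa [T.res, hTj] at h1
    have hnorm : ‖β - J M RatFunc.X‖ = (p : ℝ) ^ (-(M : ℤ)) := by
      rw [norm_sub_rev]; exact hJX M
    have hpos : 0 < ‖β - J M RatFunc.X‖ := by rw [hnorm]; positivity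
    have hstep1 : ∀ i, ∃ w ∈ (P' i).E, ‖T.σ i (c N)‖ = (p : ℝ) ^ (-(M : ℤ)) * ‖w‖ ^ N := by
      intro i
      obtain ⟨hx, hφ⟩ := hv i
      have hne : (P' i).φ ⟨T₀, hx⟩ ≠ 0 := by
        rw [hφ]; exact norm_pos_iff.1 hpos
      obtain ⟨w, hw, y, hy, hyd, h1⟩ := (P' i).kum ⟨T₀, hx⟩ hne N hN
        ‖β - J M RatFunc.X‖ hpos (c N) (g N) (hcg N hN).2.2
      refine ⟨w, hw, ?_⟩
      rw [h1, norm_mul, norm_pow]
      rw [hφ] at hyd
      rw [piv_norm_eq hyd, hnorm]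
    choose w hwE hw using hstep1
    choose w' hw'E hw' using fun i => hP' i (w i) (hwE i)
    choose w'' hw''E hw'' using fun i => hE₁n i (w' i) (hw'E i)
    have hTn : T.n = d := by rw [T.deg, hd]
    have h1 : ‖J M (b N)‖ = (p : ℝ) ^ (-((M : ℤ) * d)) * ‖∏ i, w i‖ ^ N := by
      have e0 : ∏ _i : Fin T.n, (p : ℝ) ^ (-(M : ℤ)) = (p : ℝ) ^ (-((M : ℤ) * d)) := by
        rw [Finset.prod_const, Finset.card_univ, Fintype.card_fin, hTn, ← zpow_natCast, ← zpow_mul]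
        congr 1
        ring
      rw [hb, ← hTj]
      show ‖T.j (Algebra.norm (RatFunc k') (c N))‖ = _
      rw [← T.norm, norm_prod, Finset.prod_congr rfl (fun i _ => hw i), Finset.prod_mul_distrib,
        e0, Finset.prod_pow, norm_prod]
    have h2 : ‖∏ i, w i‖ ^ D₀ = ‖∏ i, w'' i‖ := by
      rw [norm_prod, norm_prod, ← Finset.prod_pow]
      refine Finset.prod_congr rfl (fun i _ => ?_)
      rw [hD₀, pow_mul, hw' i, hd, hw'' i]
    have hJb : J M (b N) ≠ 0 := by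
      rw [Ne, map_eq_zero]; exact hb0 N hN
    have hW0 : (∏ i, w'' i) ≠ 0 := by
      intro h0
      rw [h0, norm_zero] at h2
      have h3 := (pow_eq_zero_iff hD₀pos.ne').1 h2
      rw [h3, zero_pow hN.ne', mul_zero, norm_eq_zero] at h1
      exact hJb h1
    have hWE : (∏ i, w'' i) ∈ E := prod_mem fun i _ => hw''E i
    obtain ⟨⟨j, hj⟩, -⟩ := hEe _ hWE hW0
    refine ⟨j, ?_⟩
    have e1 : (‖∏ i, w i‖ ^ N) ^ (D₀ * e) = (p : ℝ) ^ (j * N) := by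
      rw [← pow_mul, show N * (D₀ * e) = D₀ * (e * N) by ring, pow_mul, h2, pow_mul, hj,
        ← zpow_natCast, ← zpow_mul]
    have e2 : ((p : ℝ) ^ (-((M : ℤ) * d))) ^ (D₀ * e) =
        (p : ℝ) ^ (-((M : ℤ) * d * (D₀ * e : ℕ))) := by
      rw [← zpow_natCast, ← zpow_mul]
      congr 1
      ring
    rw [h1, mul_pow, e1, e2, zpow_add₀ hp0.ne']
  -- divisibility
  have hdiv : ∀ N, 0 < N → ∀ v : ℤ, piv_Ev J (b N) v → (N : ℤ) ∣ (v - d) * (D₀ * e : ℕ) := by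
    intro N hN v hv
    obtain ⟨C₀, hC₀, M₀, hM₀⟩ := hv
    obtain ⟨j₁, hj₁⟩ := hstep N hN M₀
    obtain ⟨j₂, hj₂⟩ := hstep N hN (M₀ + 1)
    rw [hM₀ M₀ le_rfl, mul_pow, ← zpow_natCast ((p : ℝ) ^ _), ← zpow_mul] at hj₁
    rw [hM₀ (M₀ + 1) (Nat.le_succ _), mul_pow, ← zpow_natCast ((p : ℝ) ^ _), ← zpow_mul] at hj₂
    have e1 : C₀ ^ (D₀ * e) = (p : ℝ) ^ (-((M₀ : ℤ) * d * (D₀ * e : ℕ)) + j₁ * N +
        (M₀ : ℤ) * v * (D₀ * e : ℕ)) := by
      rw [zpow_add₀ hp0.ne', ← hj₁, mul_assoc, ← zpow_add₀ hp0.ne']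
      have : -((M₀ : ℤ) * v) * ((D₀ * e : ℕ) : ℤ) + (M₀ : ℤ) * v * (D₀ * e : ℕ) = 0 := by ring
      rw [this, zpow_zero, mul_one]
    have e2 : C₀ ^ (D₀ * e) = (p : ℝ) ^ (-(((M₀ + 1 : ℕ) : ℤ) * d * (D₀ * e : ℕ)) + j₂ * N +
        ((M₀ + 1 : ℕ) : ℤ) * v * (D₀ * e : ℕ)) := by
      rw [zpow_add₀ hp0.ne', ← hj₂, mul_assoc, ← zpow_add₀ hp0.ne']
      have : -(((M₀ + 1 : ℕ) : ℤ) * v) * ((D₀ * e : ℕ) : ℤ) +
          ((M₀ + 1 : ℕ) : ℤ) * v * (D₀ * e : ℕ) = 0 := by ring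
      rw [this, zpow_zero, mul_one]
    have e3 := zpow_right_injective₀ hp0 hp1.ne' (e1.symm.trans e2)
    refine ⟨j₁ - j₂, ?_⟩
    rw [Nat.cast_succ] at e3
    linear_combination -e3
  have hQpos : 0 < D₀ * e := Nat.mul_pos hD₀pos he
  obtain ⟨v₁, hv₁, -⟩ := hJv (b (N₀ * (D₀ * e))) (hb0 _ (Nat.mul_pos hN₀pos hQpos))
  obtain ⟨v₀, hv₀, hv₀'⟩ := hJv (b N₀) (hb0 _ hN₀pos)
  have h1 := hdiv _ (Nat.mul_pos hN₀pos hQpos) v₁ hv₁
  have h2 : (N₀ : ℤ) ∣ v₁ - d := by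
    rw [Nat.cast_mul] at h1
    exact (mul_dvd_mul_iff_right (by exact_mod_cast hQpos.ne')).1 h1
  obtain ⟨t, ht⟩ := hcls N₀ (D₀ * e) hN₀pos hQpos
  have ht0 : t ≠ 0 := by
    rintro rfl
    rw [zero_pow hN₀pos.ne', mul_zero] at ht
    exact hb0 _ (Nat.mul_pos hN₀pos hQpos) ht
  obtain ⟨vt, hvt, -⟩ := hJv t ht0
  have h3 : v₁ = v₀ + N₀ * vt := by
    refine piv_Ev_unique hv₁ ?_
    rw [ht]
    exact piv_Ev_mul hv₀ (piv_Ev_pow hvt N₀)
  rw [hv₀' hroot, zero_add] at h3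
  rw [h3] at h2
  have h4 : (N₀ : ℤ) ∣ d := by
    have h5 : (d : ℤ) = N₀ * vt - (N₀ * vt - d) := by ring
    rw [h5]
    exact dvd_sub (dvd_mul_right _ _) h2
  have h5 := Int.le_of_dvd (by exact_mod_cast hdpos) h4
  rw [hN₀] at h5
  push_cast at h5
  linarith

end Pool.Agent.Helper1.BSX
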