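import Pool.Agent.Helper1.BSX.Core
import Pool.Agent.Helper95.BSC.ONE

/-!
# Birational sections over function fields: restriction of places and the conclusion
-/

set_option autoImplicit false

namespace Pool.Agent.Helper1.BSX

open Polynomial Pool.Agent.Helper14.BSC

section

variable {k Ω F Ω' : Type} [Field k] [Field Ω] [Algebra k Ω] [Field F] [Field Ω'] [Algebra F Ω']
  {D : Sec k Ω} {D' : Sec F Ω'} {p : ℕ} [Fact p.Prime]

/-- the restriction of a place -/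
noncomputable def resP (j : k →+* F) (i : LL D →+* LL D')
    (hi : ∀ c : k, i (algebraMap k (LL D) c) = algebraMap F (LL D') (j c))
    {σ' : F →+* ℂ_[p]} (P' : Place D' p σ') {σ : k →+* ℂ_[p]} (hσ : ∀ c, σ' (j c) = σ c) :
    Place D p σ where
  C := P'.C.comap i
  φ := P'.φ.comp (i.restrict (P'.C.comap i).toSubring P'.C.toSubring (fun x hx => hx))
  base := by
    intro c
    obtain ⟨h, h1⟩ := P'.base (j c)
    have h2 : i (algebraMap k (LL D) c) ∈ P'.C := by rw [hi]; exact h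
    refine ⟨h2, ?_⟩
    show P'.φ ⟨i (algebraMap k (LL D) c), h2⟩ = σ c
    rw [← hσ, ← h1]
    congr 1
    exact Subtype.ext (hi c)
  ker := by
    intro x
    have h1 := P'.ker ⟨i x, x.2⟩
    have h2 : (i (x : LL D) = 0 ∨ (i (x : LL D))⁻¹ ∉ P'.C) ↔
        ((x : LL D) = 0 ∨ (x : LL D)⁻¹ ∉ P'.C.comap i) := by
      rw [map_eq_zero, ← map_inv₀]
      rfl
    exact h1.trans h2
  E := P'.E
  finE := P'.finE
  kum := by
    intro x hx M hM δ hδ c g h
    obtain ⟨w, hw, y, hy, h1, h2⟩ := P'.kum ⟨i x, x.2⟩ hx M hM δ hδ (j c) (i g) (by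
      show i (x : LL D) = _
      rw [h, map_mul, map_pow, hi])
    refine ⟨w, hw, y, hy, h1, ?_⟩
    rw [← hσ]
    exact h2

/-- the value at a place of `D` is the value at every place of `D'` above it -/
theorem res_val (hKUM : ST_KUM) (hBOT : ST_BOT) (hLIM : ST_LIM) [CharZero k] [IsAlgClosed Ω]
    (j : k →+* F) (i : LL D →+* LL D')
    (hi : ∀ c : k, i (algebraMap k (LL D) c) = algebraMap F (LL D') (j c))
    {σ' : F →+* ℂ_[p]} (P' : Place D' p σ') {σ : k →+* ℂ_[p]} (hσ : ∀ c, σ' (j c) = σ c)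
    (P : Place D p σ) (x : LL D) (z : ℂ_[p]) (h : fin_Val P x z) : fin_Val P' (i x) z := by
  obtain ⟨h1, h2⟩ := place_unique hKUM hBOT hLIM P (resP j i hi P' hσ) h
  exact ⟨h1, h2⟩

end

/-- a function with algebraic values gives a place with rational values -/
theorem one_of_root (hZER : ST_ZER) (hDEP : ST_DEP) (hLZG : ST_LZG) (hEMB : ST_EMB)
    (hTSX : ST_TSX) (hRK : ST_RK) (hONE4 : ST_ONE4) (hMOB1 : ST_MOB1)
    (k Ω : Type) [Field k] [Field Ω] [Algebra k Ω] [CharZero k] [IsAlgClosed Ω]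
    (D : Sec k Ω) (hfg : (⊤ : IntermediateField ℚ k).FG) (f : LL D)
    (hf : ∀ c : k, f ≠ algebraMap k (LL D) c)
    (hdep : ∀ y z : LL D, (∀ c : k, y ≠ algebraMap k (LL D) c) → ∃ G : Polynomial (Polynomial k),
      G ≠ 0 ∧ Polynomial.eval₂ (Polynomial.aeval y).toRingHom z G = 0)
    (F₀ : k[X]) (hF₀ : F₀ ≠ 0) (hRF₀ : RootFin D f F₀) :
    ∃ (p : ℕ) (_ : Fact p.Prime) (σ : k →+* ℂ_[p]) (P : Place D p σ),
      ∀ x : LL D, ∃ z : Option k, AtVal P x z := by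
  obtain ⟨b₀, H₀, hH₀, hRA₀⟩ := hZER k Ω D f F₀ hf hF₀ hRF₀
  obtain ⟨F, iF, cF, aF, fdF, fgF, lzF⟩ := hLZG k hfg
  have : Fact (Nat.Prime 2) := ⟨Nat.prime_two⟩
  obtain ⟨j, E, hE, hjE⟩ := hEMB F fgF 2
  obtain ⟨T, hTj, -, hT1⟩ := hTSX k F 2 j E hE hjE
  have hP : ∀ i, ∃ P : Place D 2 (T.σ i), True := by
    intro i
    obtain ⟨E₁, hE₁, hσ, -⟩ := hT1 i
    obtain ⟨P, -⟩ := hRK k Ω D 2 (T.σ i) E₁ hE₁ hσ
    exact ⟨P, trivial⟩
  choose P _ using hP
  refine ⟨2, ⟨Nat.prime_two⟩, T.σ ⟨0, T.pos⟩, P ⟨0, T.pos⟩, ?_⟩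
  intro x
  by_cases hx : ∀ c : k, x ≠ algebraMap k (LL D) c
  · obtain ⟨Fx, hFx, hRFx⟩ := hDEP k Ω D (f - algebraMap k (LL D) b₀)⁻¹ x H₀
      (fun c => one_inv hf b₀ c) hH₀ hRA₀ hdep
    obtain ⟨b, H, hH, hRA⟩ := hZER k Ω D x Fx hx hFx hRFx
    have hfin : {a : k | ¬ NR D F ((x - algebraMap k (LL D) b)⁻¹ -
        algebraMap k (LL D) a)}.Finite := by
      refine (Polynomial.finite_setOfPred_isRoot hH).subset ?_
      intro a ha
      by_contra hroot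
      refine ha (hONE4 k Ω D F hfg lzF _ (H.comp (X + C a)) ?_ (one_shift hRA a))
      rw [Polynomial.eval_comp]
      simp only [Polynomial.eval_add, Polynomial.eval_X, Polynomial.eval_C, zero_add]
      exact hroot
    obtain ⟨z, hz⟩ := hMOB1 k Ω D F 2 T P _ (fun c => one_inv hx b c) hfin
    have hz0 := hz ⟨0, T.pos⟩
    obtain ⟨hgC, -⟩ := hRA 2 (T.σ ⟨0, T.pos⟩) (by
      obtain ⟨E', hE', h'⟩ := T.fin
      exact ⟨E', hE', h' _⟩) (P ⟨0, T.pos⟩)
    cases z with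
    | none => exact absurd hgC hz0
    | some c => exact one_val _ hx b c hz0
  · push Not at hx
    obtain ⟨c, hc⟩ := hx
    obtain ⟨h1, h2⟩ := (P ⟨0, T.pos⟩).base c
    refine ⟨some c, ?_⟩
    rw [hc]
    exact ⟨h1, h2⟩

end Pool.Agent.Helper1.BSX
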