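import Mathlib
import Pool.Agent.Helper1.BSX.Conv2
import Pool.Agent.Helper7.BSX.LD
import Pool.Agent.Helper21.BSX.GAU
import Pool.Agent.Helper44.BSX.WX
import Pool.Agent.Helper46.BSX.CONJ
import Pool.Agent.Helper46.BSX.H0
import Pool.Agent.Helper58.BSX.DEC

/-!
# A birational section is geometric if and only if it extends to `k(u)`

`k` is finitely generated over `ℚ`, `K/k` is a regular function field of one variable, `Ω` is an
algebraic closure of `K`, `kb` is the algebraic closure of `k` in `Ω` and `s` is a section of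
`Gal(Ω/K) → Gal(kb/k)`.  `F/k` is a finitely generated extension which is not algebraic, for example
`F = k(u)`.  `M` is the compositum of `K` and `F`, in which some `t ∈ K` with `K/k(t)` algebraic is
transcendental over `F`; since `K/k` is regular, `M` is the field of fractions of `K ⊗_k F`, that is the
function field of the curve over `F`.  `U` is an algebraic closure of `M` containing `Ω`, and `Fb` is the
algebraic closure of `F` in `U`.
-/

set_option autoImplicit false

namespace Pool.Agent.Helper1.BSX.ExtensionCriterion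

/-- `s` is a section of the birational Galois group of `K/k` (the hypotheses of S17615). -/
def IsSection {k K kb Ω : Type} [Field k] [Field K] [Field kb] [Field Ω] [Algebra k kb] [Algebra kb Ω]
    [Algebra K Ω] (s : (kb ≃ₐ[k] kb) →* (Ω ≃ₐ[K] Ω)) : Prop :=
  Continuous s ∧ ∀ (g : kb ≃ₐ[k] kb) (x : kb), s g (algebraMap kb Ω x) = algebraMap kb Ω (g x)

/-- `s` is geometric and arises from a unique rational point (the conclusion of S17615). -/
def IsGeometric {k K kb Ω : Type} [Field k] [Field K] [Field kb] [Field Ω] [Algebra k K] [Algebra k kb]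
    [Algebra K Ω] (s : (kb ≃ₐ[k] kb) →* (Ω ≃ₐ[K] Ω)) : Prop :=
  ∃! O : ValuationSubring K,
    O ≠ ⊤ ∧ (∀ c : k, algebraMap k K c ∈ O) ∧
    (∀ a ∈ O, ∃ c : k, O.valuation (a - algebraMap k K c) < 1) ∧
    ∃ W : ValuationSubring Ω, W.comap (algebraMap K Ω) = O ∧
      ∀ (g : kb ≃ₐ[k] kb) (x : Ω), (s g x ∈ W ↔ x ∈ W)

/-- The section `s'` over `F` extends the section `s` over `k`: if `g' ∈ Gal(Fb/F)` induces `g` on `kb`,
then `s' g'` induces `s g` on `Ω`. -/
def Extends {k K kb Ω F M Fb U : Type} [Field k] [Field K] [Field kb] [Field Ω] [Field F] [Field M]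
    [Field Fb] [Field U] [Algebra k kb] [Algebra K Ω] [Algebra F Fb] [Algebra M U] [Algebra kb Fb]
    [Algebra Ω U] (s' : (Fb ≃ₐ[F] Fb) →* (U ≃ₐ[M] U)) (s : (kb ≃ₐ[k] kb) →* (Ω ≃ₐ[K] Ω)) : Prop :=
  ∀ (g : kb ≃ₐ[k] kb) (g' : Fb ≃ₐ[F] Fb),
    (∀ y : kb, g' (algebraMap kb Fb y) = algebraMap kb Fb (g y)) →
    ∀ x : Ω, s' g' (algebraMap Ω U x) = algebraMap Ω U (s g x)

/-- Let `k` be finitely generated over `ℚ`, let `K/k` be a regular function field of one variable, let `s`
be a section, and let `F/k` be any finitely generated extension of positive transcendence degree (for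
example `F = k(u)`). Then `s` is geometric, from a unique rational point, if and only if `s` extends to a
section `s'` over `F`. -/
theorem result
    -- the field `k` and the curve over `k`
    (k : Type) [Field k] [CharZero k] (hk : (⊤ : IntermediateField ℚ k).FG)
    (K : Type) [Field K] [Algebra k K] (_hK : (⊤ : IntermediateField k K).FG)
    (_hreg : ∀ x : K, IsAlgebraic k x → x ∈ (algebraMap k K).range)
    (kb Ω : Type) [Field kb] [Field Ω] [Algebra k kb] [Algebra kb Ω] [Algebra k Ω] [Algebra K Ω]
    [IsScalarTower k kb Ω] [IsScalarTower k K Ω] [IsAlgClosure k kb] [IsAlgClosure K Ω]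
    -- the field `F` and the function field `M` of the curve over `F`
    (F : Type) [Field F] [Algebra k F] (hF : (⊤ : IntermediateField k F).FG)
    (hu : ∃ u : F, Transcendental k u)
    (M : Type) [Field M] [Algebra F M] [Algebra K M] [Algebra k M] [IsScalarTower k F M]
    [IsScalarTower k K M] (hM : IntermediateField.adjoin F (Set.range (algebraMap K M)) = ⊤)
    (t : K) (htK : Algebra.IsAlgebraic (IntermediateField.adjoin k {t}) K)
    (htM : Transcendental F (algebraMap K M t))
    (Fb U : Type) [Field Fb] [Field U] [Algebra F Fb] [Algebra Fb U] [Algebra F U] [Algebra M U]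
    [IsScalarTower F Fb U] [IsScalarTower F M U] [IsAlgClosure F Fb] [IsAlgClosure M U]
    -- the inclusions `kb ⊆ Fb` and `Ω ⊆ U`
    [Algebra kb Fb] [Algebra k Fb] [IsScalarTower k kb Fb] [IsScalarTower k F Fb]
    [Algebra Ω U] [Algebra K U] [IsScalarTower K Ω U] [IsScalarTower K M U]
    [Algebra kb U] [IsScalarTower kb Ω U] [IsScalarTower kb Fb U]
    (s : (kb ≃ₐ[k] kb) →* (Ω ≃ₐ[K] Ω)) (hs : IsSection s) :
    IsGeometric s ↔ ∃ s' : (Fb ≃ₐ[F] Fb) →* (U ≃ₐ[M] U), IsSection s' ∧ Extends s' s := by
  have h1 : IsAlgClosed Ω := IsAlgClosure.isAlgClosed K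
  have h2 : Algebra.IsAlgebraic K Ω := IsAlgClosure.isAlgebraic
  have h3 : IsAlgClosed U := IsAlgClosure.isAlgClosed M
  have h4 : Algebra.IsAlgebraic M U := IsAlgClosure.isAlgebraic
  constructor
  · intro hg
    exact Pool.Agent.Helper1.BSX.cv_top Pool.Agent.Helper1.BSX.st_LD Pool.Agent.Helper1.BSX.st_H0
      Pool.Agent.Helper1.BSX.st_CONJ Pool.Agent.Helper1.BSX.st_WX Pool.Agent.Helper1.BSX.st_GAU
      (Pool.Agent.Helper1.BSX.st_DEC Pool.Agent.Helper1.BSX.st_GAU) hM t htK htM s hs hg
  · rintro ⟨s', hs', he⟩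
    obtain ⟨u, hu⟩ := hu
    have ht : Transcendental k t := by
      intro h
      apply htM
      have h5 : IsAlgebraic k (algebraMap K M t) := h.algebraMap
      exact h5.extendScalars (algebraMap k F).injective
    exact Pool.Agent.Helper1.BSX.top_ext hk ⟨t, ht, htK⟩ hF u hu s hs s' hs' he

end Pool.Agent.Helper1.BSX.ExtensionCriterion
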