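import Pool.Agent.Helper1.BSX.Ext

/-!
# Descent of the polynomial from `k(t_2, ..., t_r)` to `k`
-/

set_option autoImplicit false

namespace Pool.Agent.Helper1.BSX

open Polynomial Cardinal Pool.Agent.Helper14.BSC

/-- `ℚ_p` contains algebraically independent families over a countable field -/
theorem indep_ext (p : ℕ) [Fact p.Prime] (A : Type) [Field A] [Countable A] [Algebra A ℂ_[p]]
    (B : Type) [Countable B] :
    ∃ x : B → ℚ_[p], AlgebraicIndependent A (fun b => algebraMap ℚ_[p] ℂ_[p] (x b)) := by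
  obtain ⟨u, -, hu⟩ := exists_maximal_algebraicIndependent (R := A) (∅ : Set ℂ_[p])
    (Set.range (algebraMap ℚ_[p] ℂ_[p])) (Set.empty_subset _)
    (algebraicIndependent_empty_type_iff.2 (algebraMap A ℂ_[p]).injective)
  have hunc : ¬ u.Countable := by
    intro hc
    have hc' : Countable u := hc.to_subtype
    have h0 : AlgebraicIndependent A ((↑) : u → ℂ_[p]) := hu.prop.1
    have h1 : #(Algebra.adjoin A (Set.range ((↑) : u → ℂ_[p]))) ≤ ℵ₀ := by
      have h2 : #(Algebra.adjoin A (Set.range ((↑) : u → ℂ_[p]))) = #(MvPolynomial u A) :=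
        (Cardinal.mk_congr h0.aevalEquiv.toEquiv).symm
      rw [h2]
      refine MvPolynomial.cardinalMk_le_max.trans ?_
      exact max_le (max_le Cardinal.mk_le_aleph0 Cardinal.mk_le_aleph0) le_rfl
    have h1' : Countable (Algebra.adjoin A (Set.range ((↑) : u → ℂ_[p]))) :=
      Cardinal.mk_le_aleph0_iff.1 h1
    have h2 := Algebraic.countable (Algebra.adjoin A (Set.range ((↑) : u → ℂ_[p]))) ℂ_[p]
    have h3 : Set.range (algebraMap ℚ_[p] ℂ_[p]) ⊆
        {y | IsAlgebraic (Algebra.adjoin A (Set.range ((↑) : u → ℂ_[p]))) y} := by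
      intro y hy
      by_contra hna
      have h4 : AlgebraicIndepOn A id (insert y u) := by
        refine AlgebraicIndepOn.insert hu.prop.1 ?_
        rw [Set.image_id]
        rw [Subtype.range_coe] at hna
        exact hna
      have h5 := hu.le_of_ge ⟨h4, Set.insert_subset hy hu.prop.2⟩ (Set.subset_insert y u)
      have h6 : y ∈ u := h5 (Set.mem_insert y u)
      apply hna
      exact isAlgebraic_algebraMap (⟨y, Algebra.subset_adjoin ⟨⟨y, h6⟩, rfl⟩⟩ :
        Algebra.adjoin A (Set.range ((↑) : u → ℂ_[p])))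
    have h4 : (Set.range (algebraMap ℚ_[p] ℂ_[p])).Countable := h2.mono h3
    have h5 : Countable ℚ_[p] := by
      rw [Set.countable_iff_exists_injOn] at h4
      obtain ⟨f, hf⟩ := h4
      refine ⟨fun x => f (algebraMap ℚ_[p] ℂ_[p] x), fun x y hxy => ?_⟩
      exact (algebraMap ℚ_[p] ℂ_[p]).injective (hf ⟨x, rfl⟩ ⟨y, rfl⟩ hxy)
    have h6 := continuum_le_cardinal_of_nontriviallyNormedField ℚ_[p]
    have h7 : #ℚ_[p] ≤ ℵ₀ := Cardinal.mk_le_aleph0
    exact absurd (h6.trans h7) (not_le.2 Cardinal.aleph0_lt_continuum)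
  have hinf : Infinite u := by
    by_contra hn
    rw [not_infinite_iff_finite] at hn
    exact hunc (Set.to_countable u)
  obtain ⟨e, he⟩ := exists_injective_nat B
  have h1 : ∀ b : B, ∃ x : ℚ_[p], algebraMap ℚ_[p] ℂ_[p] x = (Infinite.natEmbedding u (e b) : ℂ_[p]) := by
    intro b
    exact hu.prop.2 (Infinite.natEmbedding u (e b)).2
  choose x hx using h1
  refine ⟨x, ?_⟩
  have h2 : (fun b => algebraMap ℚ_[p] ℂ_[p] (x b)) =
      fun b => (Infinite.natEmbedding u (e b) : ℂ_[p]) := funext hx
  rw [h2]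
  have h0 : AlgebraicIndependent A ((↑) : u → ℂ_[p]) := hu.prop.1
  exact h0.comp (fun b => Infinite.natEmbedding u (e b))
    ((Infinite.natEmbedding u).injective.comp he)

/-- extraction of a coefficient -/
theorem desc_poly {k : Type} [Field k] [Countable k] [CharZero k] {B : Type} [Countable B]
    (Q : Polynomial (MvPolynomial B k)) (hQ : Q ≠ 0) :
    ∃ R : k[X], R ≠ 0 ∧ ∀ (p : ℕ) [Fact p.Prime] (σ : k →+* ℂ_[p]) (β : ℂ_[p]),
      (∀ x : B → ℚ_[p], Function.Injective
          (MvPolynomial.eval₂Hom σ (fun b => algebraMap ℚ_[p] ℂ_[p] (x b))) →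
        (Q.map (MvPolynomial.eval₂Hom σ (fun b => algebraMap ℚ_[p] ℂ_[p] (x b)))).eval β = 0) →
      (R.map σ).eval β = 0 := by
  obtain ⟨j, hj⟩ : ∃ j, Q.coeff j ≠ 0 := by
    by_contra h
    push Not at h
    exact hQ (Polynomial.ext (by simpa using h))
  obtain ⟨μ, hμ⟩ : ∃ μ, (Q.coeff j).coeff μ ≠ 0 := by
    by_contra h
    push Not at h
    exact hj (MvPolynomial.ext _ _ (by simpa using h))
  refine ⟨∑ i ∈ Finset.range (Q.natDegree + 1), C ((Q.coeff i).coeff μ) * X ^ i, ?_, ?_⟩
  · intro h
    have h1 := congrArg (fun P : k[X] => P.coeff j) h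
    simp only [finsetSum_coeff, coeff_C_mul, coeff_X_pow, mul_ite, mul_one, mul_zero,
      coeff_zero] at h1
    rw [Finset.sum_ite_eq, if_pos] at h1
    · exact hμ h1
    · rw [Finset.mem_range]
      have := le_natDegree_of_ne_zero hj
      omega
  · intro p _ σ β h
    let S : Set ℂ_[p] := Set.range σ ∪ {β}
    have hS : S.Countable := (Set.countable_range σ).union (Set.countable_singleton β)
    let A := IntermediateField.adjoin ℚ S
    have hA : Countable A := by
      rw [← Cardinal.mk_le_aleph0_iff]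
      refine (IntermediateField.cardinalMk_adjoin_le ℚ S).trans ?_
      refine max_le (max_le Cardinal.mk_le_aleph0 ?_) le_rfl
      have := hS.to_subtype
      exact Cardinal.mk_le_aleph0
    obtain ⟨x, hx⟩ := indep_ext p A B
    have hmem : ∀ c, σ c ∈ A := fun c => IntermediateField.subset_adjoin ℚ S (Or.inl ⟨c, rfl⟩)
    have hβ : β ∈ A := IntermediateField.subset_adjoin ℚ S (Or.inr rfl)
    let σA : k →+* A := σ.codRestrict A hmem
    have hσA : ∀ c, ((σA c : A) : ℂ_[p]) = σ c := fun c => rfl
    let f : B → ℂ_[p] := fun b => algebraMap ℚ_[p] ℂ_[p] (x b)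
    have hcomp : ∀ P : MvPolynomial B k, MvPolynomial.eval₂Hom σ f P =
        MvPolynomial.aeval f (MvPolynomial.map σA P) := by
      intro P
      rw [MvPolynomial.aeval_def, MvPolynomial.eval₂_map]
      rfl
    have hinj : Function.Injective (MvPolynomial.eval₂Hom σ f) := by
      rw [injective_iff_map_eq_zero]
      intro P hP
      rw [hcomp] at hP
      have h1 : MvPolynomial.map σA P = 0 := by
        apply hx
        rw [hP, map_zero]
      exact MvPolynomial.map_injective σA σA.injective (by rw [h1, map_zero])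
    have h1 := h x hinj
    rw [eval_map, eval₂_eq_sum_range] at h1
    let βA : A := ⟨β, hβ⟩
    let W : MvPolynomial B A := ∑ i ∈ Finset.range (Q.natDegree + 1),
      MvPolynomial.C (βA ^ i) * MvPolynomial.map σA (Q.coeff i)
    have h2 : MvPolynomial.aeval f W = 0 := by
      rw [← h1]
      simp only [W]
      rw [map_sum]
      refine Finset.sum_congr rfl fun i _ => ?_
      rw [map_mul, MvPolynomial.aeval_C, hcomp, mul_comm]
      rfl
    have h3 : W = 0 := by
      apply hx
      rw [h2, map_zero]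
    have h4 : MvPolynomial.coeff μ W = 0 := by rw [h3, MvPolynomial.coeff_zero]
    simp only [W] at h4
    rw [MvPolynomial.coeff_sum] at h4
    have h5 := congrArg (fun z : A => (z : ℂ_[p])) h4
    rw [eval_map, eval₂_finsetSum]
    have h6 : ∀ i, eval₂ σ β (C (MvPolynomial.coeff μ (Q.coeff i)) * X ^ i) =
        ((MvPolynomial.coeff μ (MvPolynomial.C (βA ^ i) * MvPolynomial.map σA (Q.coeff i)) : A) :
          ℂ_[p]) := by
      intro i
      rw [eval₂_mul, eval₂_C, eval₂_pow, eval₂_X, MvPolynomial.coeff_C_mul,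
        MvPolynomial.coeff_map, mul_comm]
      rfl
    rw [Finset.sum_congr rfl fun i _ => h6 i]
    have h7 : ((∑ i ∈ Finset.range (Q.natDegree + 1),
        MvPolynomial.coeff μ (MvPolynomial.C (βA ^ i) * MvPolynomial.map σA (Q.coeff i)) : A) :
          ℂ_[p]) = 0 := h5
    rw [← h7]
    push_cast
    rfl

end Pool.Agent.Helper1.BSX
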