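import Pool.Agent.Helper1.BSX.Gen

/-!
# The polynomial for a section over an arbitrary finitely generated extension
-/

set_option autoImplicit false

namespace Pool.Agent.Helper1.BSX

open Polynomial Cardinal Pool.Agent.Helper14.BSC
open scoped IntermediateField.algebraAdjoinAdjoin

theorem gen_alg {A R F : Type} [CommRing A] [Field R] [Field F] [Algebra A F] [Algebra R F]
    (hinj : Function.Injective (algebraMap A F))
    (h : ∀ a : A, ∃ r : R, algebraMap R F r = algebraMap A F a) {z : F} (hz : IsAlgebraic A z) :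
    IsAlgebraic R z := by
  obtain ⟨P, hP, hPz⟩ := hz
  have h1 : P.map (algebraMap A F) ∈ Polynomial.lifts (algebraMap R F) := by
    rw [Polynomial.lifts_iff_coeff_lifts]
    intro n
    rw [coeff_map]
    obtain ⟨r, hr⟩ := h (P.coeff n)
    exact ⟨r, hr⟩
  obtain ⟨Q, hQ⟩ := (Polynomial.mem_lifts _).1 h1
  refine ⟨Q, ?_, ?_⟩
  · rintro rfl
    rw [Polynomial.map_zero] at hQ
    exact hP ((Polynomial.map_eq_zero_iff hinj).1 hQ.symm)
  · rw [aeval_def, ← eval_map, hQ, eval_map, ← aeval_def]
    exact hPz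

theorem gen_fin {k R F : Type} [Field k] [Field R] [Field F] [Algebra k F] [Algebra R F]
    (hF : (⊤ : IntermediateField k F).FG)
    (hk : ∀ c : k, ∃ r : R, algebraMap R F r = algebraMap k F c)
    (halg : ∀ z : F, IsAlgebraic R z) : FiniteDimensional R F := by
  obtain ⟨S, hS⟩ := hF
  have h1 : IntermediateField.adjoin R (S : Set F) = ⊤ := by
    rw [eq_top_iff]
    intro z _
    have h2 : z ∈ IntermediateField.adjoin k (S : Set F) := by rw [hS]; trivial
    induction h2 using IntermediateField.adjoin_induction with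
    | mem s hs => exact IntermediateField.subset_adjoin _ _ hs
    | algebraMap c =>
      obtain ⟨r, hr⟩ := hk c
      rw [← hr]
      exact IntermediateField.algebraMap_mem _ _
    | add u v _ _ hu hv => exact add_mem (hu trivial) (hv trivial)
    | inv u _ hu => exact inv_mem (hu trivial)
    | mul u v _ _ hu hv => exact mul_mem (hu trivial) (hv trivial)
  have h2 : FiniteDimensional R (IntermediateField.adjoin R (S : Set F)) := by
    have : Finite (S : Set F) := S.finite_toSet.to_subtype
    exact IntermediateField.finiteDimensional_adjoin fun z _ => (halg z).isIntegral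
  rw [h1] at h2
  exact IntermediateField.topEquiv.toLinearEquiv.finiteDimensional

theorem gen_count {k F : Type} [Field k] [Countable k] [Field F] [Algebra k F]
    (hF : (⊤ : IntermediateField k F).FG) : Countable F := by
  obtain ⟨S, hS⟩ := hF
  have h1 := IntermediateField.cardinalMk_adjoin_le k (S : Set F)
  have h2 : #(⊤ : IntermediateField k F) ≤ ℵ₀ := by
    rw [← hS]
    refine h1.trans (max_le (max_le ?_ ?_) le_rfl)
    · exact Cardinal.mk_le_aleph0
    · exact Cardinal.mk_le_aleph0
  have h3 : Countable (⊤ : IntermediateField k F) := Cardinal.mk_le_aleph0_iff.1 h2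
  exact Countable.of_equiv _ (IntermediateField.topEquiv (F := k) (E := F)).toEquiv

theorem gen_root (hKUM : ST_KUM) (hROOT : ST_ROOT) (hBOT : ST_BOT) (hLIM : ST_LIM)
    (hEFIN : ST_EFIN) (hRK : ST_RK) (hTSX : ST_TSX) {k Ω F Ω' : Type} [Field k] [CharZero k]
    [Countable k] [Field Ω] [Algebra k Ω] [IsAlgClosed Ω] [Field F] [Algebra k F] [Field Ω']
    [Algebra F Ω'] [IsAlgClosed Ω'] (hF : (⊤ : IntermediateField k F).FG) (t : F)
    (ht : Transcendental k t) (D : Sec k Ω) (D' : Sec F Ω') (i : LL D →+* LL D')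
    (hi : ∀ c : k, i (algebraMap k (LL D) c) = algebraMap F (LL D') (algebraMap k F c))
    (f : LL D) : ∃ R : k[X], R ≠ 0 ∧ RootFin D f R := by
  have hcF : CharZero F := charZero_of_injective_algebraMap (algebraMap k F).injective
  have hF' : Countable F := gen_count hF
  -- a transcendence basis containing `t`
  have h0 : AlgebraicIndepOn k id ({t} : Set F) := by
    have h1 : AlgebraicIndepOn k (id : F → F) (∅ : Set F) :=
      algebraicIndependent_empty_type_iff.2 (algebraMap k F).injective
    have h2 : AlgebraicIndepOn k (id : F → F) (insert t ∅) := by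
      refine h1.insert ?_
      rw [Set.image_empty, Algebra.adjoin_empty]
      intro hh
      apply ht
      exact gen_alg (A := (⊥ : Subalgebra k F)) Subtype.val_injective (by
        rintro ⟨a, ha⟩
        obtain ⟨c, hc⟩ := Algebra.mem_bot.1 ha
        exact ⟨c, hc⟩) hh
    rwa [insert_empty_eq] at h2
  obtain ⟨B, htB, hB⟩ := exists_isTranscendenceBasis_superset h0
  obtain ⟨s, hs⟩ : ∃ s : Set F, s = B \ {t} := ⟨_, rfl⟩
  have hts : t ∉ s := by rw [hs]; simp
  have hins : insert t s = B := by
    rw [hs, Set.insert_sdiff_singleton, Set.insert_eq_of_mem (htB rfl)]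
  have hB1 : AlgebraicIndepOn k id (insert t s) := by rw [hins]; exact hB.1
  have hB2 := (AlgebraicIndepOn.insert_iff hts).1 hB1
  rw [Set.image_id] at hB2
  have hv : AlgebraicIndependent k ((↑) : s → F) := hB2.1
  have hrange : Set.range ((↑) : s → F) = s := Subtype.range_coe
  -- the field `k' = k(s)`
  let A' := Algebra.adjoin k (Set.range ((↑) : s → F))
  let k' := IntermediateField.adjoin k (Set.range ((↑) : s → F))
  have htk' : Transcendental k' t := by
    rw [IntermediateField.transcendental_adjoin_iff, hrange]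
    exact hB2.2
  have hk'c : Countable k' := Subtype.countable
  have hk'0 : CharZero k' := charZero_of_injective_algebraMap (algebraMap k k').injective
  have hinjt : Function.Injective (Polynomial.aeval t : k'[X] →ₐ[k'] F).toRingHom := by
    exact transcendental_iff_injective.1 htk'
  let jt : RatFunc k' →+* F := RatFunc.liftRingHom (Polynomial.aeval t : k'[X] →ₐ[k'] F).toRingHom
    (nonZeroDivisors_le_comap_nonZeroDivisors_of_injective _ hinjt)
  have hjt : ∀ P : k'[X], jt (algebraMap k'[X] (RatFunc k') P) = Polynomial.aeval t P :=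
    fun P => RatFunc.liftRingHom_algebraMap _ _ P
  have hjc : ∀ c : k', jt (algebraMap k' (RatFunc k') c) = (c : F) := by
    intro c
    rw [IsScalarTower.algebraMap_apply k' k'[X] (RatFunc k'), hjt]
    exact Polynomial.aeval_C t c
  have hjX : jt RatFunc.X = t := by
    rw [← RatFunc.algebraMap_X, hjt, Polynomial.aeval_X]
  letI : Algebra (RatFunc k') F := jt.toAlgebra
  have hfd : FiniteDimensional (RatFunc k') F := by
    refine gen_fin hF ?_ ?_
    · intro c
      exact ⟨algebraMap k' (RatFunc k') (algebraMap k k' c), hjc _⟩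
    · intro z
      have h1 : Algebra.IsAlgebraic (Algebra.adjoin k (Set.range ((↑) : B → F))) F :=
        hB.isAlgebraic
      refine gen_alg (A := Algebra.adjoin k (Set.range ((↑) : B → F))) Subtype.val_injective ?_
        (h1.isAlgebraic z)
      rintro ⟨a, ha⟩
      change ∃ r, jt r = a
      rw [Subtype.range_coe] at ha
      induction ha using Algebra.adjoin_induction with
      | mem x hx =>
        by_cases hxt : x = t
        · exact ⟨RatFunc.X, by rw [hjX, hxt]⟩
        · have hxs : x ∈ s := by rw [hs]; exact ⟨hx, hxt⟩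
          exact ⟨algebraMap k' (RatFunc k') ⟨x, IntermediateField.subset_adjoin _ _ ⟨⟨x, hxs⟩, rfl⟩⟩,
            hjc _⟩
      | algebraMap r => exact ⟨algebraMap k' (RatFunc k') (algebraMap k k' r), hjc _⟩
      | add x y _ _ hx hy =>
        obtain ⟨r, rfl⟩ := hx
        obtain ⟨r', rfl⟩ := hy
        exact ⟨r + r', map_add _ _ _⟩
      | mul x y _ _ hx hy =>
        obtain ⟨r, rfl⟩ := hx
        obtain ⟨r', rfl⟩ := hy
        exact ⟨r * r', map_mul _ _ _⟩
  obtain ⟨R', hR', hcore⟩ := core hKUM hROOT hBOT hEFIN hRK hTSX (k' := k') (F := F) D' (i f)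
  -- clear denominators
  obtain ⟨b, hb, hnum⟩ := IsLocalization.integerNormalization_spec (nonZeroDivisors A') R'
  obtain ⟨R₂, hR₂⟩ : ∃ R₂ : A'[X], R₂ = IsLocalization.integerNormalization (nonZeroDivisors A') R' :=
    ⟨_, rfl⟩
  rw [← hR₂] at hnum
  have hb0 : algebraMap A' k' b ≠ 0 := by
    intro h
    exact nonZeroDivisors.ne_zero hb ((map_eq_zero_iff _ (IsFractionRing.injective A' k')).1 h)
  have hR₂0 : R₂ ≠ 0 := by
    rintro h
    rw [h, Polynomial.map_zero] at hnum
    have h1 : (algebraMap A' k' b) • R' = 0 := by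
      rw [algebraMap_smul]; exact hnum.symm
    exact (smul_ne_zero hb0 hR') h1
  let e : MvPolynomial s k ≃ₐ[k] A' := hv.aevalEquiv
  have hQ : R₂.map (e.symm.toRingEquiv.toRingHom) ≠ 0 := by
    rw [Ne, Polynomial.map_eq_zero_iff e.symm.injective]
    exact hR₂0
  have hsc : Countable s := Subtype.countable
  obtain ⟨R, hR, hdesc⟩ := desc_poly _ hQ
  refine ⟨R, hR, ?_⟩
  intro p _ σ₀ hσ₀ P hfP
  obtain ⟨E₀, hE₀, hσE₀⟩ := hσ₀
  refine hdesc p σ₀ _ (fun x hx => ?_)
  obtain ⟨β, hβ⟩ : ∃ β, β = P.φ ⟨f, hfP⟩ := ⟨_, rfl⟩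
  rw [← hβ]
  obtain ⟨ψ, hψ⟩ : ∃ ψ : MvPolynomial s k →+* ℂ_[p],
    ψ = MvPolynomial.eval₂Hom σ₀ (fun b => algebraMap ℚ_[p] ℂ_[p] (x b)) := ⟨_, rfl⟩
  rw [← hψ] at hx ⊢
  have i1 : FiniteDimensional ℚ_[p] P.E := P.finE
  obtain ⟨E, hE⟩ : ∃ E : IntermediateField ℚ_[p] ℂ_[p], E = E₀ ⊔ P.E := ⟨_, rfl⟩
  have hEfin : FiniteDimensional ℚ_[p] E := by
    rw [hE]; exact IntermediateField.finiteDimensional_sup _ _
  have hσE : ∀ c, σ₀ c ∈ E := fun c => by
    rw [hE]; exact (le_sup_left : E₀ ≤ E₀ ⊔ P.E) (hσE₀ c)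
  have hβE : β ∈ E := by
    rw [hE, hβ]; exact (le_sup_right : P.E ≤ E₀ ⊔ P.E) (place_mem P f hfP)
  have hψE : ∀ q, ψ q ∈ E := by
    intro q
    rw [hψ]
    induction q using MvPolynomial.induction_on with
    | C c => rw [MvPolynomial.eval₂Hom_C]; exact hσE c
    | add q r hq hr => rw [map_add]; exact add_mem hq hr
    | mul_X q j hq =>
      rw [map_mul, MvPolynomial.eval₂Hom_X']
      exact mul_mem hq (E.algebraMap_mem _)
  let g : A' →+* ℂ_[p] := ψ.comp e.symm.toRingEquiv.toRingHom
  have hg : Function.Injective g := hx.comp e.symm.injective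
  let σ : k' →+* ℂ_[p] := IsFractionRing.lift hg
  have hσg : ∀ a : A', σ (algebraMap A' k' a) = g a := fun a => IsFractionRing.lift_algebraMap hg a
  have hσc : ∀ c : k, σ (algebraMap k k' c) = σ₀ c := by
    intro c
    have h1 : algebraMap k k' c = algebraMap A' k' (algebraMap k A' c) := rfl
    rw [h1, hσg]
    change ψ (e.symm (algebraMap k A' c)) = σ₀ c
    rw [AlgEquiv.commutes, hψ, MvPolynomial.algebraMap_eq, MvPolynomial.eval₂Hom_C]
  have hσE' : ∀ c : k', σ c ∈ E := by
    intro c
    obtain ⟨a, d, _, h1⟩ := IsFractionRing.div_surjective (A := A') c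
    rw [← h1, map_div₀, hσg, hσg]
    exact div_mem (hψE _) (hψE _)
  have h1 := hcore p σ E hEfin hσE' β hβE (by
    intro σ' hσ' hres P'
    refine res_val hKUM hBOT hLIM (algebraMap k F) i hi P' (σ := σ₀) ?_ P f β ⟨hfP, hβ.symm⟩
    intro c
    rw [← hσc c, ← hres]
    congr 1
    exact (hjc (algebraMap k k' c)).symm)
  -- evaluate
  have h2 : (R₂.map g).eval β = 0 := by
    have h3 : R₂.map g = (R₂.map (algebraMap A' k')).map σ := by
      rw [Polynomial.map_map]
      congr 1
      exact RingHom.ext fun a => (hσg a).symm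
    rw [h3, hnum, ← algebraMap_smul k' b R', Polynomial.map_smul, eval_smul, h1, smul_zero]
  rw [Polynomial.map_map]
  exact h2

end Pool.Agent.Helper1.BSX
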