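import Pool.Agent.Helper1.BSX.Gen2
import Pool.Agent.Helper14.BSC.All

/-!
# A section which extends to a section over a field of positive transcendence degree is geometric
-/

set_option autoImplicit false

namespace Pool.Agent.Helper1.BSX

open Polynomial Pool.Agent.Helper14.BSC Pool.Agent.Helper14.BSC.Gen

/-- `s'` induces `s` -/
def Ext {k K kb Ω F M Fb U : Type} [Field k] [Field K] [Field kb] [Field Ω] [Field F] [Field M]
    [Field Fb] [Field U] [Algebra k kb] [Algebra K Ω] [Algebra F Fb] [Algebra M U] [Algebra kb Fb]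
    [Algebra Ω U] (s : (kb ≃ₐ[k] kb) →* (Ω ≃ₐ[K] Ω)) (s' : (Fb ≃ₐ[F] Fb) →* (U ≃ₐ[M] U)) : Prop :=
  ∀ (g : kb ≃ₐ[k] kb) (g' : Fb ≃ₐ[F] Fb),
    (∀ y : kb, g' (algebraMap kb Fb y) = algebraMap kb Fb (g y)) →
    ∀ x : Ω, s' g' (algebraMap Ω U x) = algebraMap Ω U (s g x)

section

variable {k K kb Ω F M Fb U : Type} [Field k] [Field K] [Field kb] [Field Ω] [Field F] [Field M]
  [Field Fb] [Field U]
  [Algebra k K] [Algebra k kb] [Algebra k Ω] [Algebra kb Ω] [Algebra K Ω]
  [IsScalarTower k K Ω] [IsScalarTower k kb Ω]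
  [Algebra F M] [Algebra F Fb] [Algebra F U] [Algebra Fb U] [Algebra M U]
  [IsScalarTower F M U] [IsScalarTower F Fb U]
  [Algebra k F] [Algebra k Fb] [Algebra kb Fb] [IsScalarTower k F Fb] [IsScalarTower k kb Fb]
  [Algebra K M] [Algebra k M] [IsScalarTower k K M] [IsScalarTower k F M]
  [Algebra Ω U] [Algebra K U] [IsScalarTower K M U] [IsScalarTower K Ω U]

theorem top_ext [CharZero k] [Algebra.IsAlgebraic K Ω] [IsAlgClosed Ω] [IsAlgClosure k kb]
    [Algebra.IsAlgebraic M U] [IsAlgClosed U] [IsAlgClosure F Fb]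
    (hk : (⊤ : IntermediateField ℚ k).FG)
    (htr : ∃ t : K, Transcendental k t ∧ Algebra.IsAlgebraic (IntermediateField.adjoin k {t}) K)
    (hF : (⊤ : IntermediateField k F).FG) (t : F) (ht : Transcendental k t)
    (s : (kb ≃ₐ[k] kb) →* (Ω ≃ₐ[K] Ω)) (hs : IsSection s)
    (s' : (Fb ≃ₐ[F] Fb) →* (U ≃ₐ[M] U)) (hs' : IsSection s') (he : Ext s s') :
    IsGeometric s := by
  have hcF : CharZero F := charZero_of_injective_algebraMap (algebraMap k F).injective
  have hcK : CharZero K := charZero_of_injective_algebraMap (algebraMap k K).injective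
  have hcQ : Countable k := gen_count hk
  have hn : Normal k kb := IsAlgClosure.normal k kb
  -- the inclusion of the fixed fields
  have hmem : ∀ x : LL (topD s hs), algebraMap Ω U (x : Ω) ∈ LL (topD s' hs') := by
    intro x
    rw [top_mem]
    intro g'
    have hx := (top_mem s hs (x : Ω)).1 x.2
    have h1 := he (AlgEquiv.restrictNormal (g'.restrictScalars k) kb) g' (fun y =>
      (AlgEquiv.restrictNormal_commutes (g'.restrictScalars k) kb y).symm) (x : Ω)
    rw [h1, hx]
  let i : LL (topD s hs) →+* LL (topD s' hs') :=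
    ((algebraMap Ω U).comp (LL (topD s hs)).toSubfield.subtype).codRestrict
      (LL (topD s' hs')).toSubfield hmem
  have hi : ∀ c : k, i (algebraMap k (LL (topD s hs)) c) =
      algebraMap F (LL (topD s' hs')) (algebraMap k F c) := by
    intro c
    apply Subtype.ext
    change algebraMap Ω U (algebraMap k Ω c) = algebraMap F U (algebraMap k F c)
    rw [IsScalarTower.algebraMap_apply k K Ω, ← IsScalarTower.algebraMap_apply K Ω U,
      IsScalarTower.algebraMap_apply K M U, ← IsScalarTower.algebraMap_apply k K M,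
      IsScalarTower.algebraMap_apply k F M, ← IsScalarTower.algebraMap_apply F M U]
  obtain ⟨t₀, ht₀, hta⟩ := htr
  have hf : algebraMap K Ω t₀ ∈ LL (topD s hs) := (top_mem s hs _).2 (fun g => (s g).commutes t₀)
  have hfc : ∀ c : k, (⟨algebraMap K Ω t₀, hf⟩ : LL (topD s hs)) ≠
      algebraMap k (LL (topD s hs)) c := by
    intro c hc
    apply ht₀
    have h1 := congrArg (fun z : LL (topD s hs) => (z : Ω)) hc
    change algebraMap K Ω t₀ = algebraMap k Ω c at h1
    rw [IsScalarTower.algebraMap_apply k K Ω] at h1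
    rw [(algebraMap K Ω).injective h1]
    exact isAlgebraic_algebraMap c
  obtain ⟨R, hR, hroot⟩ := gen_root all_KUM all_ROOT all_BOT all_LIM all_EFIN all_RK all_TSX hF t ht
    (topD s hs) (topD s' hs') i hi ⟨algebraMap K Ω t₀, hf⟩
  obtain ⟨p, hp, σ, P, hP⟩ := one_of_root all_ZER all_DEP all_LZG all_EMB all_TSX all_RK all_ONE4
    all_MOB1 k Ω (topD s hs) hk _ hfc (all_ALG k K Ω (topD s hs) ⟨t₀, ht₀, hta⟩) R hR hroot
  have hfix : ∀ (g : GG k Ω) (x : K), (topD s hs).s g (algebraMap K Ω x) = algebraMap K Ω x :=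
    fun g x => (s _).commutes x
  obtain ⟨O, hO⟩ := all_IFD k K Ω (topD s hs) p σ P ⟨t₀, ht₀⟩ hfix hP
  refine ⟨O, (top_geo s hs O).2 hO, ?_⟩
  intro O' hO'
  exact all_UNI k K Ω (topD s hs) hk hfix O' O ((top_geo s hs O').1 hO') hO

end

end Pool.Agent.Helper1.BSX
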